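import Mathlib

/-!
Randomized integration of functions with bounded derivatives on the unit cube: the definitions.
-/

open MeasureTheory
open scoped ENNReal

namespace Pool.Agent.H28.RI

/-- The closed unit cube `[0,1]^d`. -/
def cube (d : ℕ) : Set (Fin d → ℝ) := {x | ∀ i, 0 ≤ x i ∧ x i ≤ 1}

/-- The open unit cube `(0,1)^d`. -/
def openCube (d : ℕ) : Set (Fin d → ℝ) := {x | ∀ i, 0 < x i ∧ x i < 1}

/-- The class `F_d^k`: functions on `[0,1]^d` (values outside of the cube are irrelevant),
continuous on the closed cube, `k` times continuously differentiable on the open cube, such that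
every derivative `∂_{v 0} ⋯ ∂_{v (j-1)} f` of order `j ≤ k` is bounded by `1` on the open cube. -/
def F (d k : ℕ) : Set ((Fin d → ℝ) → ℝ) :=
  {f | ContinuousOn f (cube d) ∧ ContDiffOn ℝ k f (openCube d) ∧
    ∀ j ≤ k, ∀ v : Fin j → Fin d, ∀ x ∈ openCube d,
      |iteratedFDeriv ℝ j f x (fun i => Pi.single (v i) 1)| ≤ 1}

/-- The integral of `f` over the unit cube. -/
noncomputable def S {d : ℕ} (f : (Fin d → ℝ) → ℝ) : ℝ := ∫ x in cube d, f x

/-- Deterministic adaptive algorithms that use function values at points of `[0,1]^d`:
either output a real number, or ask for the value of the function at a point of the cube and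
continue with an algorithm that may depend on this value. -/
inductive Alg (d : ℕ) : Type
  | out : ℝ → Alg d
  | query : (cube d) → (ℝ → Alg d) → Alg d

/-- The output of a deterministic algorithm on the input `f`. -/
def Alg.output {d : ℕ} (f : (Fin d → ℝ) → ℝ) : Alg d → ℝ
  | .out r => r
  | .query x next => Alg.output f (next (f x))

/-- The number of function values that a deterministic algorithm uses on the input `f`. -/
def Alg.cost {d : ℕ} (f : (Fin d → ℝ) → ℝ) : Alg d → ℕ
  | .out _ => 0
  | .query x next => Alg.cost f (next (f x)) + 1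

/-- The upper integral of a nonnegative function. -/
noncomputable def upperIntegral {Ω : Type} [MeasurableSpace Ω] (μ : Measure Ω)
    (g : Ω → ℝ≥0∞) : ℝ≥0∞ :=
  ⨅ (h : Ω → ℝ≥0∞) (_ : Measurable h) (_ : ∀ ω, g ω ≤ h ω), ∫⁻ ω, h ω ∂μ

/-- A randomized algorithm: a family of deterministic algorithms indexed by a probability space,
such that the number of function values used on each input in `F_d^k` is a random variable. -/
structure RandAlg (d k : ℕ) : Type 1 where
  /-- the index set -/
  Ω : Type
  /-- its sigma-algebra -/
  mΩ : MeasurableSpace Ω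
  /-- the distribution of the random element -/
  μ : Measure Ω
  /-- which is a probability measure -/
  prob : IsProbabilityMeasure μ
  /-- the deterministic algorithms -/
  alg : Ω → Alg d
  /-- the number of function values used is measurable -/
  meas : ∀ f ∈ F d k, Measurable (fun ω => (alg ω).cost f)

/-- The cardinality of a randomized algorithm: the largest expected number of function values
used on an input in `F_d^k`. -/
noncomputable def RandAlg.card {d k : ℕ} (A : RandAlg d k) : ℝ≥0∞ :=
  ⨆ f ∈ F d k, @lintegral A.Ω A.mΩ A.μ (fun ω => (((A.alg ω).cost f : ℕ) : ℝ≥0∞))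

/-- The error of a randomized algorithm on `F_d^k`. -/
noncomputable def RandAlg.err {d k : ℕ} (A : RandAlg d k) : ℝ≥0∞ :=
  ⨆ f ∈ F d k, @upperIntegral A.Ω A.mΩ A.μ (fun ω => ENNReal.ofReal |S f - (A.alg ω).output f|)

/-- The `n`-th minimal randomized error `e^ran(n, F_d^k)`. -/
noncomputable def eRan (n d k : ℕ) : ℝ≥0∞ :=
  ⨅ (A : RandAlg d k) (_ : A.card ≤ n), A.err

/-- The set of the real `t` for which there is a constant `C`, depending on `k` only, with
`e^ran(n, F_d^k) ≤ C * d^t * n^(-k/d-1/2)` for all positive integers `d` and `n`. -/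
def exponents (k : ℕ) : Set ℝ :=
  {t | ∃ C : ℝ, ∀ d n : ℕ, 1 ≤ d → 1 ≤ n →
    eRan n d k ≤ ENNReal.ofReal (C * (d : ℝ) ^ t * (n : ℝ) ^ (-(k : ℝ) / (d : ℝ) - 1 / 2))}

/-- The critical exponent `t_k`, the infimum of all these `t`. -/
noncomputable def tCrit (k : ℕ) : ℝ := sInf (exponents k)

end Pool.Agent.H28.RI
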