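import Mathlib
import Pool.Agent.H28.RI.Defs

/-!
Nonadaptive algorithms, and general Monte Carlo estimates.
-/

open Set MeasureTheory
open scoped ENNReal

namespace Pool.Agent.H28.RI

/-- the nonadaptive algorithm that uses the values at given points -/
def Alg.ofFin {d : ℕ} : ∀ n : ℕ, (Fin n → cube d) → ((Fin n → ℝ) → ℝ) → Alg d
  | 0, _, φ => .out (φ Fin.elim0)
  | n + 1, x, φ => .query (x 0) fun y =>
      Alg.ofFin n (fun i => x i.succ) fun v => φ (Fin.cons y v)

lemma Alg.output_ofFin {d : ℕ} (f : (Fin d → ℝ) → ℝ) : ∀ (n : ℕ) (x : Fin n → cube d)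
    (φ : (Fin n → ℝ) → ℝ), (Alg.ofFin n x φ).output f = φ (fun i => f (x i)) := by
  intro n
  induction n with
  | zero =>
    intro x φ
    simp only [Alg.ofFin, Alg.output]
    congr 1
    exact Subsingleton.elim _ _
  | succ n ih =>
    intro x φ
    simp only [Alg.ofFin, Alg.output]
    rw [ih]
    congr 1
    ext i
    refine Fin.cases ?_ (fun j => ?_) i <;> simp

lemma Alg.cost_ofFin {d : ℕ} (f : (Fin d → ℝ) → ℝ) : ∀ (n : ℕ) (x : Fin n → cube d)
    (φ : (Fin n → ℝ) → ℝ), (Alg.ofFin n x φ).cost f = n := by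
  intro n
  induction n with
  | zero => intro x φ; simp [Alg.ofFin, Alg.cost]
  | succ n ih =>
    intro x φ
    simp only [Alg.ofFin, Alg.cost]
    rw [ih]

lemma upperIntegral_le_lintegral {Ω : Type} [MeasurableSpace Ω] (μ : Measure Ω)
    {g h : Ω → ℝ≥0∞} (hh : Measurable h) (hgh : ∀ ω, g ω ≤ h ω) :
    upperIntegral μ g ≤ ∫⁻ ω, h ω ∂μ :=
  iInf_le_of_le h (iInf_le_of_le hh (iInf_le _ hgh))

/-- every nonadaptive randomized algorithm gives an upper bound -/
lemma eRan_le {d k n : ℕ} {ι : Type} [Fintype ι] (hι : Fintype.card ι ≤ n)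
    {Ω : Type} [mΩ : MeasurableSpace Ω] (μ : Measure Ω) [hμ : IsProbabilityMeasure μ]
    (x : Ω → ι → cube d) (φ : Ω → (ι → ℝ) → ℝ) (K : ℝ≥0∞)
    (h : ∀ f ∈ F d k, upperIntegral μ
      (fun ω => ENNReal.ofReal |S f - φ ω (fun i => f (x ω i))|) ≤ K) :
    eRan n d k ≤ K := by
  let e := Fintype.equivFin ι
  let A : RandAlg d k :=
    { Ω := Ω
      mΩ := mΩ
      μ := μ
      prob := hμ
      alg := fun ω => Alg.ofFin (Fintype.card ι) (fun i => x ω (e.symm i))
        (fun v => φ ω (fun i => v (e i)))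
      meas := by
        intro f _
        simp only [Alg.cost_ofFin]
        exact measurable_const }
  have hcard : A.card ≤ n := by
    unfold RandAlg.card
    refine iSup₂_le fun f _ => ?_
    have : ∀ ω : A.Ω, (((A.alg ω).cost f : ℕ) : ℝ≥0∞) = (Fintype.card ι : ℝ≥0∞) := by
      intro ω
      show (((Alg.ofFin _ _ _).cost f : ℕ) : ℝ≥0∞) = _
      rw [Alg.cost_ofFin]
    simp_rw [this]
    show ∫⁻ _, (Fintype.card ι : ℝ≥0∞) ∂μ ≤ n
    rw [lintegral_const, measure_univ, mul_one]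
    exact_mod_cast hι
  refine iInf_le_of_le A (iInf_le_of_le hcard ?_)
  unfold RandAlg.err
  refine iSup₂_le fun f hf => ?_
  have : ∀ ω : A.Ω, (A.alg ω).output f = φ ω (fun i => f (x ω i)) := by
    intro ω
    show (Alg.ofFin _ _ _).output f = _
    rw [Alg.output_ofFin]
    simp
  simp_rw [this]
  exact h f hf

/-- Monte Carlo -/
lemma mc {α : Type} [MeasurableSpace α] (μ : Measure α) [IsProbabilityMeasure μ] {n : ℕ}
    (hn : 0 < n) (h : α → ℝ) (hh : MemLp h 2 μ) :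
    MemLp (fun X : Fin n → α => (n : ℝ)⁻¹ * ∑ i, h (X i) - ∫ x, h x ∂μ) 2
      (Measure.pi fun _ => μ) ∧
    ∫ X, ((n : ℝ)⁻¹ * ∑ i, h (X i) - ∫ x, h x ∂μ) ^ 2 ∂(Measure.pi fun _ : Fin n => μ) ≤
      (n : ℝ)⁻¹ * ∫ x, h x ^ 2 ∂μ := by
  set P : Measure (Fin n → α) := Measure.pi fun _ => μ with hP
  have hmp : ∀ i : Fin n, MeasurePreserving (fun X : Fin n → α => X i) P μ :=
    fun i => measurePreserving_eval (fun _ : Fin n => μ) i
  have hL : ∀ i : Fin n, MemLp (fun X : Fin n → α => h (X i)) 2 P :=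
    fun i => hh.comp_measurePreserving (hmp i)
  have hsum : MemLp (fun X : Fin n → α => ∑ i, h (X i)) 2 P := memLp_finsetSum _ fun i _ => hL i
  have hmean : MemLp (fun X : Fin n → α => (n : ℝ)⁻¹ * ∑ i, h (X i)) 2 P := hsum.const_mul _
  refine ⟨hmean.sub (memLp_const _), ?_⟩
  have hn' : (0 : ℝ) < n := by exact_mod_cast hn
  have hint : ∀ i : Fin n, ∫ X, h (X i) ∂P = ∫ x, h x ∂μ := by
    intro i
    rw [← (hmp i).map_eq, integral_map (hmp i).measurable.aemeasurable]
    rw [(hmp i).map_eq]; exact hh.aestronglyMeasurable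
  have hE : ∫ X, (n : ℝ)⁻¹ * ∑ i, h (X i) ∂P = ∫ x, h x ∂μ := by
    rw [integral_const_mul, integral_finsetSum _ (fun i _ => (hL i).integrable (by norm_num))]
    simp_rw [hint]
    simp
    field_simp
  have hvar : ProbabilityTheory.variance (fun X : Fin n → α => (n : ℝ)⁻¹ * ∑ i, h (X i)) P =
      (n : ℝ)⁻¹ * ProbabilityTheory.variance h μ := by
    rw [ProbabilityTheory.variance_const_mul]
    have hind : ProbabilityTheory.iIndepFun (fun (i : Fin n) (X : Fin n → α) => h (X i)) P :=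
      ProbabilityTheory.iIndepFun_pi (X := fun _ => h)
        (fun _ => hh.aestronglyMeasurable.aemeasurable)
    have hs : (fun X : Fin n → α => ∑ i, h (X i)) = ∑ i : Fin n, (fun X : Fin n → α => h (X i)) := by
      ext X; simp
    rw [hs, ProbabilityTheory.IndepFun.variance_sum (fun i _ => hL i)
      (fun i _ j _ hij => hind.indepFun hij)]
    have : ∀ i : Fin n, ProbabilityTheory.variance (fun X : Fin n → α => h (X i)) P =
        ProbabilityTheory.variance h μ := by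
      intro i
      have := (hmp i).variance_fun_comp (f := h) hh.aestronglyMeasurable.aemeasurable
      exact this
    simp_rw [this]
    simp
    field_simp
  have h1 : ∫ X, ((n : ℝ)⁻¹ * ∑ i, h (X i) - ∫ x, h x ∂μ) ^ 2 ∂P =
      ProbabilityTheory.variance (fun X : Fin n → α => (n : ℝ)⁻¹ * ∑ i, h (X i)) P := by
    rw [ProbabilityTheory.variance_eq_integral hmean.aestronglyMeasurable.aemeasurable, hE]
  rw [h1, hvar]
  gcongr
  rw [ProbabilityTheory.variance_eq_sub hh]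
  have : 0 ≤ (∫ x, h x ∂μ) ^ 2 := sq_nonneg _
  simpa using this

/-- from mean square error to mean error -/
lemma mean_abs_le {Ω : Type} [MeasurableSpace Ω] (μ : Measure Ω) [IsProbabilityMeasure μ]
    {e : Ω → ℝ} (he : Measurable e) {K : ℝ} (hK : 0 ≤ K)
    (h : ∫⁻ ω, ENNReal.ofReal (e ω ^ 2) ∂μ ≤ ENNReal.ofReal (K ^ 2)) :
    ∫⁻ ω, ENNReal.ofReal |e ω| ∂μ ≤ ENNReal.ofReal K := by
  have h1 : eLpNorm e 1 μ ≤ eLpNorm e 2 μ :=
    eLpNorm_le_eLpNorm_of_exponent_le (by norm_num) he.aestronglyMeasurable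
  rw [eLpNorm_one_eq_lintegral_enorm, eLpNorm_eq_lintegral_rpow_enorm_toReal (by norm_num)
    (by norm_num)] at h1
  have e1 : ∀ ω, ‖e ω‖ₑ = ENNReal.ofReal |e ω| := fun ω => Real.enorm_eq_ofReal_abs _
  simp_rw [e1] at h1
  refine h1.trans ?_
  have e2 : ∀ ω, (ENNReal.ofReal |e ω|) ^ (ENNReal.toReal 2) = ENNReal.ofReal (e ω ^ 2) := by
    intro ω
    rw [ENNReal.ofReal_rpow_of_nonneg (abs_nonneg _) (by norm_num)]
    simp
  simp_rw [e2]
  calc (∫⁻ ω, ENNReal.ofReal (e ω ^ 2) ∂μ) ^ (1 / ENNReal.toReal 2)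
      ≤ (ENNReal.ofReal (K ^ 2)) ^ (1 / ENNReal.toReal 2) :=
        ENNReal.rpow_le_rpow h (by norm_num)
    _ = ENNReal.ofReal K := by
        rw [ENNReal.ofReal_rpow_of_nonneg (by positivity) (by norm_num)]
        congr 1
        rw [← Real.rpow_natCast K 2, ← Real.rpow_mul hK]
        norm_num

end Pool.Agent.H28.RI
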