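import Mathlib

/-!
One-dimensional piecewise polynomial interpolation.
-/

open MeasureTheory Polynomial

namespace Pool.Agent.H28.RI

/-- interpolation nodes in `(0,1)` -/
noncomputable def node (k : ℕ) (a : Fin k) : ℝ := ((a : ℝ) + 1) / ((k : ℝ) + 1)

lemma node_pos (k : ℕ) (a : Fin k) : 0 < node k a := by
  unfold node; positivity

lemma node_lt_one (k : ℕ) (a : Fin k) : node k a < 1 := by
  unfold node
  rw [div_lt_one (by positivity)]
  have : (a : ℝ) < k := by exact_mod_cast a.2
  linarith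

lemma node_injective (k : ℕ) : Function.Injective (node k) := by
  intro a b h
  unfold node at h
  have hk : ((k : ℝ) + 1) ≠ 0 := by positivity
  field_simp at h
  have : (a : ℝ) = b := by linarith
  exact Fin.ext (by exact_mod_cast this)

/-- Lagrange basis -/
noncomputable def ell (k : ℕ) (a : Fin k) : ℝ[X] := Lagrange.basis Finset.univ (node k) a

lemma sum_ell {k : ℕ} (P : ℝ[X]) (hP : P.degree < (k : ℕ)) (t : ℝ) :
    ∑ a : Fin k, P.eval (node k a) * (ell k a).eval t = P.eval t := by
  have h := Lagrange.eq_interpolate (s := (Finset.univ : Finset (Fin k))) (v := node k) (f := P)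
    ((node_injective k).injOn) (by simpa using hP)
  conv_rhs => rw [h]
  rw [Lagrange.interpolate_apply, Polynomial.eval_finsetSum]
  simp [ell]

/-- The nodes of the grid of size `M`. -/
noncomputable def zz (k M : ℕ) (p : Fin M × Fin k) : ℝ := ((p.1 : ℝ) + node k p.2) / M

lemma zz_pos {k M : ℕ} (p : Fin M × Fin k) : 0 < zz k M p := by
  unfold zz
  have hM : 0 < M := lt_of_le_of_lt (Nat.zero_le _) p.1.2
  have := node_pos k p.2
  positivity

lemma zz_lt_one {k M : ℕ} (p : Fin M × Fin k) : zz k M p < 1 := by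
  unfold zz
  have hM : 0 < M := lt_of_le_of_lt (Nat.zero_le _) p.1.2
  have hM' : (0 : ℝ) < M := by exact_mod_cast hM
  rw [div_lt_one hM']
  have h1 := node_lt_one k p.2
  have h2 : (p.1 : ℝ) + 1 ≤ M := by exact_mod_cast p.1.2
  linarith

/-- The cell `[q/M, (q+1)/M)` -/
def cell (M : ℕ) (q : ℕ) : Set ℝ := Set.Ico ((q : ℝ) / M) (((q : ℝ) + 1) / M)

/-- The piecewise polynomial basis functions. -/
noncomputable def phi (k M : ℕ) (p : Fin M × Fin k) (x : ℝ) : ℝ :=
  (cell M p.1).indicator (fun x => (ell k p.2).eval (M * x - p.1)) x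

/-- The interpolation operator. -/
noncomputable def TT (k M : ℕ) (h : ℝ → ℝ) (x : ℝ) : ℝ :=
  ∑ p : Fin M × Fin k, h (zz k M p) * phi k M p x

lemma cell_unique {M : ℕ} {q q' : ℕ} {x : ℝ} (h : x ∈ cell M q) (h' : x ∈ cell M q') :
    q = q' := by
  rcases Nat.eq_zero_or_pos M with hM | hM
  · subst hM; simp [cell] at h
  have hM' : (0 : ℝ) < M := by exact_mod_cast hM
  simp only [cell, Set.mem_Ico, div_le_iff₀ hM', lt_div_iff₀ hM'] at h h'
  have h1 : (q : ℝ) < q' + 1 := by linarith
  have h2 : (q' : ℝ) < q + 1 := by linarith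
  have h1' : q < q' + 1 := by exact_mod_cast h1
  have h2' : q' < q + 1 := by exact_mod_cast h2
  omega

lemma exists_cell {M : ℕ} (hM : 0 < M) {x : ℝ} (h0 : 0 ≤ x) (h1 : x < 1) :
    ∃ q : Fin M, x ∈ cell M q := by
  have hM' : (0 : ℝ) < M := by exact_mod_cast hM
  have hlt : ⌊(M : ℝ) * x⌋₊ < M := by
    rw [Nat.floor_lt (by positivity)]
    nlinarith
  refine ⟨⟨⌊(M : ℝ) * x⌋₊, hlt⟩, ?_⟩
  simp only [cell, Set.mem_Ico, div_le_iff₀ hM', lt_div_iff₀ hM']
  constructor
  · have := Nat.floor_le (show 0 ≤ (M : ℝ) * x by positivity)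
    linarith
  · have := Nat.lt_floor_add_one ((M : ℝ) * x)
    linarith

lemma phi_of_mem {k M : ℕ} {q : Fin M} {a : Fin k} {x : ℝ} (h : x ∈ cell M q) :
    phi k M (q, a) x = (ell k a).eval (M * x - q) := by
  unfold phi
  exact Set.indicator_of_mem h _

lemma phi_of_not_mem {k M : ℕ} {q : Fin M} {a : Fin k} {x : ℝ} (h : x ∉ cell M q) :
    phi k M (q, a) x = 0 := by
  unfold phi
  exact Set.indicator_of_notMem h _

lemma sum_phi_cell {k M : ℕ} {q : Fin M} {x : ℝ} (h : x ∈ cell M q) (c : Fin M × Fin k → ℝ) :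
    ∑ p : Fin M × Fin k, c p * phi k M p x = ∑ a, c (q, a) * (ell k a).eval (M * x - q) := by
  rw [Fintype.sum_prod_type]
  rw [Finset.sum_eq_single q]
  · refine Finset.sum_congr rfl fun a _ => ?_
    rw [phi_of_mem h]
  · intro q' _ hq'
    refine Finset.sum_eq_zero fun a _ => ?_
    rw [phi_of_not_mem, mul_zero]
    intro h'
    exact hq' (Fin.ext (cell_unique h' h))
  · intro h; exact absurd (Finset.mem_univ _) h

/-- exactness on polynomials -/
lemma TT_poly {k M : ℕ} {q : Fin M} {x : ℝ} (h : x ∈ cell M q) (P : ℝ[X])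
    (hP : P.degree < (k : ℕ)) (g : ℝ → ℝ) (hg : ∀ a, g (zz k M (q, a)) = P.eval (zz k M (q, a))) :
    TT k M g x = P.eval x := by
  have hM : 0 < M := lt_of_le_of_lt (Nat.zero_le _) q.2
  have hM' : (0 : ℝ) < M := by exact_mod_cast hM
  unfold TT
  rw [sum_phi_cell h (fun p => g (zz k M p))]
  simp only [hg]
  set R : ℝ[X] := P.comp (C ((M : ℝ)⁻¹) * (X + C (q : ℝ))) with hR
  have hRdeg : R.degree < (k : ℕ) := by
    rcases eq_or_ne P 0 with h0 | h0
    · subst h0; simp [hR]
    have hPn : P.natDegree < k := (Polynomial.natDegree_lt_iff_degree_lt h0).2 hP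
    have : R.natDegree ≤ P.natDegree := by
      rw [hR]
      refine (Polynomial.natDegree_comp_le).trans ?_
      have : (C ((M : ℝ)⁻¹) * (X + C (q : ℝ))).natDegree ≤ 1 := by
        refine (Polynomial.natDegree_C_mul_le _ _).trans ?_
        exact (Polynomial.natDegree_X_add_C _).le
      nlinarith
    exact lt_of_le_of_lt Polynomial.degree_le_natDegree (by exact_mod_cast lt_of_le_of_lt this hPn)
  have key := sum_ell R hRdeg (M * x - q)
  have e1 : ∀ t : ℝ, R.eval t = P.eval ((t + q) / M) := by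
    intro t
    rw [hR, Polynomial.eval_comp]
    congr 1
    simp
    field_simp
  rw [e1] at key
  have e2 : ((M : ℝ) * x - q + q) / M = x := by field_simp; ring
  rw [e2] at key
  rw [← key]
  refine Finset.sum_congr rfl fun a _ => ?_
  rw [e1]
  congr 2
  unfold zz
  ring

/-- the Lebesgue constant -/
lemma exists_Lam (k : ℕ) : ∃ L : ℝ, 1 ≤ L ∧ ∀ (M : ℕ) (x : ℝ),
    ∑ p : Fin M × Fin k, |phi k M p x| ≤ L := by
  have hc : ContinuousOn (fun t : ℝ => ∑ a : Fin k, |(ell k a).eval t|) (Set.Icc 0 1) := by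
    fun_prop
  obtain ⟨B, hB⟩ := (isCompact_Icc.image_of_continuousOn hc).bddAbove
  refine ⟨max B 1, le_max_right _ _, ?_⟩
  intro M x
  by_cases hx : ∃ q : Fin M, x ∈ cell M q
  · obtain ⟨q, hq⟩ := hx
    have hM : 0 < M := lt_of_le_of_lt (Nat.zero_le _) q.2
    have hM' : (0 : ℝ) < M := by exact_mod_cast hM
    rw [Fintype.sum_prod_type]
    rw [Finset.sum_eq_single q]
    · refine le_trans ?_ (le_max_left _ _)
      refine hB ⟨M * x - q, ?_, ?_⟩
      · simp only [cell, Set.mem_Ico, div_le_iff₀ hM', lt_div_iff₀ hM'] at hq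
        constructor <;> linarith
      · refine Finset.sum_congr rfl fun a _ => ?_
        rw [phi_of_mem hq]
    · intro q' _ hq'
      refine Finset.sum_eq_zero fun a _ => ?_
      rw [phi_of_not_mem, abs_zero]
      intro h'
      exact hq' (Fin.ext (cell_unique h' hq))
    · intro h; exact absurd (Finset.mem_univ _) h
  · push Not at hx
    have : ∑ p : Fin M × Fin k, |phi k M p x| = 0 := by
      refine Finset.sum_eq_zero fun p _ => ?_
      have := phi_of_not_mem (k := k) (a := p.2) (hx p.1)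
      simpa using this
    rw [this]
    exact le_trans zero_le_one (le_max_right _ _)

end Pool.Agent.H28.RI
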