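import Mathlib
import Pool.Agent.H28.RI.Defs
import Pool.Agent.H28.RI.OneD

/-!
Taylor polynomials, the interpolation error, and one-dimensional sections of functions in the class.
-/

open Set Polynomial

namespace Pool.Agent.H28.RI

lemma taylor_poly {k : ℕ} (hk : 1 ≤ k) {g : ℝ → ℝ} {B : ℝ}
    (hg : ContDiffOn ℝ k g (Ioo 0 1)) (hB : ∀ t ∈ Ioo (0:ℝ) 1, |iteratedDeriv k g t| ≤ B)
    {c : ℝ} (hc : c ∈ Ioo (0:ℝ) 1) :
    ∃ P : ℝ[X], P.degree < (k : ℕ) ∧ ∀ y ∈ Ioo (0:ℝ) 1, |g y - P.eval y| ≤ B * |y - c| ^ k := by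
  obtain ⟨n, rfl⟩ : ∃ n, k = n + 1 := ⟨k - 1, by omega⟩
  refine ⟨∑ j ∈ Finset.range (n + 1), C ((j.factorial : ℝ)⁻¹ * iteratedDeriv j g c) *
    (X - C c) ^ j, ?_, ?_⟩
  · refine lt_of_le_of_lt (Polynomial.degree_sum_le _ _) ?_
    rw [Finset.sup_lt_iff (by exact_mod_cast WithBot.bot_lt_coe _)]
    intro j hj
    have hj' : j < n + 1 := Finset.mem_range.1 hj
    refine lt_of_le_of_lt (Polynomial.degree_mul_le _ _) ?_
    rw [Polynomial.degree_pow, Polynomial.degree_X_sub_C]
    simp only [nsmul_eq_mul, mul_one]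
    calc _ ≤ (0 : WithBot ℕ) + (j : WithBot ℕ) := by gcongr; exact Polynomial.degree_C_le
      _ = (j : WithBot ℕ) := zero_add _
      _ < _ := by exact_mod_cast hj'
  · intro y hy
    have hB0 : 0 ≤ B := le_trans (abs_nonneg _) (hB c hc)
    rcases eq_or_ne c y with h | hne
    · subst h
      rw [Polynomial.eval_finsetSum]
      rw [Finset.sum_eq_single 0]
      · simp
      · intro j _ hj
        simp [hj]
      · simp
    · have hsub : uIcc c y ⊆ Ioo (0:ℝ) 1 := by
        intro t ht
        rw [mem_uIcc] at ht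
        rcases ht with ht | ht
        · exact ⟨lt_of_lt_of_le hc.1 ht.1, lt_of_le_of_lt ht.2 hy.2⟩
        · exact ⟨lt_of_lt_of_le hy.1 ht.1, lt_of_le_of_lt ht.2 hc.2⟩
      have huniq : UniqueDiffOn ℝ (uIcc c y) := uniqueDiffOn_Icc (by
        rcases lt_or_gt_of_ne hne with h | h
        · simpa [min_eq_left h.le, max_eq_right h.le] using h
        · simpa [min_eq_right h.le, max_eq_left h.le] using h)
      have hcd : ∀ t ∈ Ioo (0:ℝ) 1, ContDiffAt ℝ (n+1 : ℕ) g t := fun t ht =>
        (hg t ht).contDiffAt (Ioo_mem_nhds ht.1 ht.2)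
      have heq : ∀ j ≤ n + 1, ∀ t ∈ uIcc c y, iteratedDerivWithin j g (uIcc c y) t
          = iteratedDeriv j g t := by
        intro j hj t ht
        refine iteratedDerivWithin_eq_iteratedDeriv huniq ?_ ht
        exact (hcd t (hsub ht)).of_le (by exact_mod_cast hj)
      have h1 : ContDiffOn ℝ n g (uIcc c y) := (hg.mono hsub).of_le (by exact_mod_cast Nat.le_succ n)
      have h2 : DifferentiableOn ℝ (iteratedDerivWithin n g (uIcc c y)) (uIoo c y) := by
        have := (hg.mono hsub).differentiableOn_iteratedDerivWithin (m := n)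
          (by exact_mod_cast Nat.lt_succ_self n) huniq
        exact this.mono uIoo_subset_uIcc_self
      obtain ⟨x', hx', hx'2⟩ := taylor_mean_remainder_lagrange hne h1 h2
      have hx'm : x' ∈ uIcc c y := uIoo_subset_uIcc_self hx'
      rw [heq (n+1) le_rfl x' hx'm] at hx'2
      rw [taylor_within_apply] at hx'2
      have e : (∑ j ∈ Finset.range (n + 1), C ((j.factorial : ℝ)⁻¹ * iteratedDeriv j g c) *
          (X - C c) ^ j).eval y = ∑ k ∈ Finset.range (n + 1),
          ((k.factorial : ℝ)⁻¹ * (y - c) ^ k) • iteratedDerivWithin k g (uIcc c y) c := by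
        rw [Polynomial.eval_finsetSum]
        refine Finset.sum_congr rfl fun j hj => ?_
        rw [heq j (Finset.mem_range.1 hj).le c left_mem_uIcc]
        simp
        ring
      rw [e, hx'2, abs_div, abs_mul, abs_pow]
      have hf : (1 : ℝ) ≤ |((n+1).factorial : ℝ)| := by
        rw [abs_of_nonneg (by positivity)]
        exact_mod_cast Nat.one_le_iff_ne_zero.2 (Nat.factorial_ne_zero _)
      calc _ ≤ |iteratedDeriv (n + 1) g x'| * |y - c| ^ (n + 1) := div_le_self (by positivity) hf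
        _ ≤ _ := by gcongr; exact hB x' (hsub hx'm)

lemma isOpen_openCube (d : ℕ) : IsOpen (openCube d) := by
  have : openCube d = ⋂ i : Fin d, {x | 0 < x i ∧ x i < 1} := by
    ext x; simp [openCube]
  rw [this]
  refine isOpen_iInter_of_finite fun i => ?_
  exact (isOpen_lt continuous_const (continuous_apply i)).inter
    (isOpen_lt (continuous_apply i) continuous_const)

lemma update_mem_openCube {d : ℕ} {x : Fin d → ℝ} (hx : x ∈ openCube d) (i : Fin d) {t : ℝ}
    (ht : t ∈ Ioo (0:ℝ) 1) : Function.update x i t ∈ openCube d := by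
  intro j
  by_cases h : j = i
  · subst h; simpa using ht
  · simpa [Function.update_of_ne h] using hx j

lemma section_prop {d k : ℕ} {f : (Fin d → ℝ) → ℝ} (hf : f ∈ F d k) {x : Fin d → ℝ}
    (hx : x ∈ openCube d) (i : Fin d) :
    ContDiffOn ℝ k (fun t => f (Function.update x i t)) (Ioo 0 1) ∧
    ∀ t ∈ Ioo (0:ℝ) 1, |iteratedDeriv k (fun t => f (Function.update x i t)) t| ≤ 1 := by
  obtain ⟨-, hf2, hf3⟩ := hf
  set x₀ := Function.update x i 0 with hx₀
  set L : ℝ →L[ℝ] (Fin d → ℝ) := ContinuousLinearMap.toSpanSingleton ℝ (Pi.single i 1) with hL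
  have hLt : ∀ t, x₀ + L t = Function.update x i t := by
    intro t
    ext j
    by_cases h : j = i
    · subst h; simp [hx₀, hL, ContinuousLinearMap.toSpanSingleton_apply]
    · simp [hx₀, hL, ContinuousLinearMap.toSpanSingleton_apply, Function.update_of_ne h, h]
  set f₁ : (Fin d → ℝ) → ℝ := fun y => f (x₀ + y) with hf₁
  set s₁ : Set (Fin d → ℝ) := (fun y => x₀ + y) ⁻¹' (openCube d) with hs₁
  have hs₁o : IsOpen s₁ := (isOpen_openCube d).preimage (by fun_prop)
  have hcomp : (fun t => f (Function.update x i t)) = f₁ ∘ L := by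
    ext t; simp [hf₁, hLt]
  have hpre : Ioo (0:ℝ) 1 = L ⁻¹' s₁ := by
    ext t
    simp only [hs₁, mem_preimage, hLt]
    constructor
    · intro ht; exact update_mem_openCube hx i ht
    · intro h; simpa using h i
  have hcd1 : ContDiffOn ℝ k f₁ s₁ := hf2.comp (by fun_prop) (fun y hy => hy)
  rw [hcomp]
  constructor
  · rw [hpre]; exact hcd1.comp_continuousLinearMap L
  · intro t ht
    have ht' : t ∈ L ⁻¹' s₁ := hpre ▸ ht
    have hpo : IsOpen (L ⁻¹' s₁) := hs₁o.preimage L.continuous
    have h1 := L.iteratedFDerivWithin_comp_right hcd1 hs₁o.uniqueDiffOn hpo.uniqueDiffOn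
      (x := t) ht' (i := k) le_rfl
    rw [iteratedFDerivWithin_of_isOpen k hpo ht', iteratedFDerivWithin_of_isOpen k hs₁o ht'] at h1
    rw [iteratedDeriv_eq_iteratedFDeriv, h1]
    have h2 : iteratedFDeriv ℝ k f₁ (L t) = iteratedFDeriv ℝ k f (x₀ + L t) := by
      rw [hf₁]
      exact iteratedFDeriv_comp_add_left k x₀ (L t)
    rw [h2, ContinuousMultilinearMap.compContinuousLinearMap_apply, hLt]
    have h3 := hf3 k le_rfl (fun _ => i) (Function.update x i t) (update_mem_openCube hx i ht)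
    have e : (fun _ : Fin k => L 1) = (fun _ : Fin k => (Pi.single i (1:ℝ) : Fin d → ℝ)) := by
      funext _; simp [hL, ContinuousLinearMap.toSpanSingleton_apply]
    rw [e]
    exact h3

end Pool.Agent.H28.RI
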