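import Mathlib
import Pool.Agent.H28.RI.Section

/-!
The interpolation error, tensor product interpolation, and an orthonormal system adapted to
nested spaces of piecewise polynomials.
-/

open Set Polynomial MeasureTheory Submodule
open scoped ENNReal

namespace Pool.Agent.H28.RI

lemma TT_err {k : ℕ} (hk : 1 ≤ k) {Lam : ℝ} (hLam : ∀ (M : ℕ) (x : ℝ),
    ∑ p : Fin M × Fin k, |phi k M p x| ≤ Lam) {g : ℝ → ℝ}
    (hg : ContDiffOn ℝ k g (Ioo 0 1)) (hB : ∀ t ∈ Ioo (0:ℝ) 1, |iteratedDeriv k g t| ≤ 1)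
    {M : ℕ} (hM : 0 < M) {x : ℝ} (hx : x ∈ Ioo (0:ℝ) 1) :
    |g x - TT k M g x| ≤ (1 + Lam) * ((M : ℝ)⁻¹) ^ k := by
  have hM' : (0 : ℝ) < M := by exact_mod_cast hM
  obtain ⟨q, hq⟩ := exists_cell hM hx.1.le hx.2
  have hqM : (q : ℝ) + 1 ≤ M := by exact_mod_cast q.2
  set c : ℝ := ((q : ℝ) + 1 / 2) / M with hc
  have hc01 : c ∈ Ioo (0:ℝ) 1 := by
    constructor
    · positivity
    · rw [hc, div_lt_one hM']; linarith
  obtain ⟨P, hP, hP2⟩ := taylor_poly hk hg hB hc01
  have hclose : ∀ y, (q : ℝ) / M ≤ y → y ≤ ((q : ℝ) + 1) / M → |y - c| ≤ (M : ℝ)⁻¹ := by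
    intro y h1 h2
    rw [hc, abs_le, inv_eq_one_div]
    rw [div_le_iff₀ hM'] at h1
    rw [le_div_iff₀ hM'] at h2
    have e1 : y = (y * M) / M := by field_simp
    constructor
    · rw [e1, ← sub_div, ← neg_div, div_le_div_iff_of_pos_right hM']; linarith
    · rw [e1, ← sub_div, div_le_div_iff_of_pos_right hM']; linarith
  have hxq := hq
  simp only [cell, Set.mem_Ico] at hxq
  have h1 : |g x - P.eval x| ≤ ((M : ℝ)⁻¹) ^ k := by
    refine (hP2 x hx).trans ?_
    rw [one_mul]
    exact pow_le_pow_left₀ (abs_nonneg _) (hclose x hxq.1 hxq.2.le) k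
  have h2 : P.eval x = TT k M (fun t => P.eval t) x := (TT_poly hq P hP _ (fun _ => rfl)).symm
  have h3 : |P.eval x - TT k M g x| ≤ Lam * ((M : ℝ)⁻¹) ^ k := by
    rw [h2]
    unfold TT
    rw [← Finset.sum_sub_distrib]
    calc |∑ p : Fin M × Fin k, (P.eval (zz k M p) * phi k M p x - g (zz k M p) * phi k M p x)|
        ≤ ∑ p : Fin M × Fin k, |P.eval (zz k M p) * phi k M p x - g (zz k M p) * phi k M p x| :=
          Finset.abs_sum_le_sum_abs _ _
      _ ≤ ∑ p : Fin M × Fin k, ((M : ℝ)⁻¹) ^ k * |phi k M p x| := by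
          refine Finset.sum_le_sum fun p _ => ?_
          by_cases hpq : x ∈ cell M p.1
          · have hpq' : (p.1 : ℕ) = q := cell_unique hpq hq
            rw [← sub_mul, abs_mul]
            gcongr
            rw [abs_sub_comm]
            refine (hP2 _ ⟨zz_pos p, zz_lt_one p⟩).trans ?_
            rw [one_mul]
            refine pow_le_pow_left₀ (abs_nonneg _) (hclose _ ?_ ?_) k
            · unfold zz
              rw [hpq']
              have := node_pos k p.2
              gcongr; linarith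
            · unfold zz
              rw [hpq']
              have := node_lt_one k p.2
              gcongr
          · have := phi_of_not_mem (k := k) (a := p.2) hpq
            simp only [Prod.mk.eta] at this
            simp [this]
      _ = ((M : ℝ)⁻¹) ^ k * ∑ p : Fin M × Fin k, |phi k M p x| := by rw [Finset.mul_sum]
      _ ≤ ((M : ℝ)⁻¹) ^ k * Lam := by gcongr; exact hLam M x
      _ = _ := mul_comm _ _
  calc |g x - TT k M g x| = |(g x - P.eval x) + (P.eval x - TT k M g x)| := by ring_nf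
    _ ≤ |g x - P.eval x| + |P.eval x - TT k M g x| := abs_add_le _ _
    _ ≤ ((M : ℝ)⁻¹) ^ k + Lam * ((M : ℝ)⁻¹) ^ k := add_le_add h1 h3
    _ = _ := by ring


/-- full tensor product interpolation on the grid -/
noncomputable def II (k M : ℕ) {d : ℕ} (f : (Fin d → ℝ) → ℝ) (x : Fin d → ℝ) : ℝ :=
  ∑ p : Fin d → Fin M × Fin k, f (fun i => zz k M (p i)) * ∏ i, phi k M (p i) (x i)

lemma II_succ {k M d : ℕ} (f : (Fin (d+1) → ℝ) → ℝ) (x : Fin (d+1) → ℝ) :
    II k M f x = ∑ p₀ : Fin M × Fin k, phi k M p₀ (x 0) *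
      II k M (fun y => f (Fin.cons (zz k M p₀) y)) (Fin.tail x) := by
  unfold II
  rw [← (Fin.consEquiv (fun _ : Fin (d+1) => Fin M × Fin k)).sum_comp]
  rw [Fintype.sum_prod_type]
  refine Finset.sum_congr rfl fun p₀ _ => ?_
  rw [Finset.mul_sum]
  refine Finset.sum_congr rfl fun p' _ => ?_
  rw [Fin.prod_univ_succ]
  simp only [Fin.consEquiv_apply, Fin.cons_zero, Fin.cons_succ]
  have : (fun i => zz k M ((Fin.cons p₀ p' : Fin (d+1) → Fin M × Fin k) i)) =
      (Fin.cons (zz k M p₀) (fun i => zz k M (p' i)) : Fin (d+1) → ℝ) := by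
    ext i
    refine Fin.cases ?_ (fun j => ?_) i <;> simp
  rw [this]
  simp only [Fin.tail]
  ring

lemma II_err {k M : ℕ} {Lam ε : ℝ} (hLam1 : 1 ≤ Lam) (hε : 0 ≤ ε) (hLam : ∀ (x : ℝ),
    ∑ p : Fin M × Fin k, |phi k M p x| ≤ Lam) :
    ∀ (d : ℕ) (f : (Fin d → ℝ) → ℝ), (∀ i, ∀ x ∈ openCube d,
      |f x - ∑ p : Fin M × Fin k, f (Function.update x i (zz k M p)) * phi k M p (x i)| ≤ ε) →
    ∀ x ∈ openCube d, |f x - II k M f x| ≤ ε * d * Lam ^ d := by
  intro d
  induction d with
  | zero =>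
    intro f _ x _
    have : II k M f x = f x := by
      unfold II
      simp
      congr 1
      exact Subsingleton.elim _ _
    rw [this]; simp
  | succ d ih =>
    intro f hf x hx
    have hx' : Fin.tail x ∈ openCube d := fun i => hx i.succ
    have h0 := hf 0 x hx
    have hsec : ∀ p₀ : Fin M × Fin k,
        |f (Fin.cons (zz k M p₀) (Fin.tail x)) -
          II k M (fun y => f (Fin.cons (zz k M p₀) y)) (Fin.tail x)| ≤ ε * d * Lam ^ d := by
      intro p₀
      refine ih (fun y => f (Fin.cons (zz k M p₀) y)) ?_ _ hx'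
      intro i y hy
      have hy' : (Fin.cons (zz k M p₀) y : Fin (d+1) → ℝ) ∈ openCube (d+1) := by
        intro j
        refine Fin.cases ?_ (fun j' => ?_) j
        · simpa using ⟨zz_pos p₀, zz_lt_one p₀⟩
        · simpa using hy j'
      have := hf i.succ _ hy'
      simpa [Fin.cons_update] using this
    have hupd : ∀ p₀ : Fin M × Fin k, Function.update x 0 (zz k M p₀) =
        (Fin.cons (zz k M p₀) (Fin.tail x) : Fin (d+1) → ℝ) := by
      intro p₀
      ext j
      refine Fin.cases ?_ (fun j' => ?_) j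
      · simp
      · simp [Fin.tail]
    rw [II_succ]
    simp only [hupd] at h0
    calc |f x - ∑ p₀ : Fin M × Fin k, phi k M p₀ (x 0) *
          II k M (fun y => f (Fin.cons (zz k M p₀) y)) (Fin.tail x)|
        = |(f x - ∑ p : Fin M × Fin k, f (Fin.cons (zz k M p) (Fin.tail x)) * phi k M p (x 0)) +
          ∑ p₀ : Fin M × Fin k, phi k M p₀ (x 0) * (f (Fin.cons (zz k M p₀) (Fin.tail x)) -
          II k M (fun y => f (Fin.cons (zz k M p₀) y)) (Fin.tail x))| := by
          congr 1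
          simp only [mul_sub, Finset.sum_sub_distrib]
          have : ∑ p : Fin M × Fin k, f (Fin.cons (zz k M p) (Fin.tail x)) * phi k M p (x 0) =
            ∑ p : Fin M × Fin k, phi k M p (x 0) * f (Fin.cons (zz k M p) (Fin.tail x)) :=
            Finset.sum_congr rfl fun _ _ => mul_comm _ _
          rw [this]; ring
      _ ≤ ε + ∑ p₀ : Fin M × Fin k, |phi k M p₀ (x 0)| * (ε * d * Lam ^ d) := by
          refine (abs_add_le _ _).trans (add_le_add h0 ?_)
          refine (Finset.abs_sum_le_sum_abs _ _).trans (Finset.sum_le_sum fun p _ => ?_)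
          rw [abs_mul]
          exact mul_le_mul_of_nonneg_left (hsec p) (abs_nonneg _)
      _ ≤ ε + Lam * (ε * d * Lam ^ d) := by
          rw [← Finset.sum_mul]
          gcongr
          exact hLam (x 0)
      _ ≤ ε * Lam ^ (d+1) + Lam * (ε * d * Lam ^ d) := by
          gcongr
          exact le_mul_of_one_le_right hε (one_le_pow₀ hLam1)
      _ = ε * ((d+1 : ℕ) : ℝ) * Lam ^ (d+1) := by push_cast; ring


lemma exists_levels {H : Type*} [NormedAddCommGroup H] [InnerProductSpace ℝ H]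
    (U : ℕ → Submodule ℝ H) (hU : ∀ l, U l ≤ U (l+1)) [∀ l, FiniteDimensional ℝ (U l)] :
    ∃ (n : ℕ → ℕ) (β : (Σ l, Fin (n l)) → H), (∀ l, n l ≤ Module.finrank ℝ (U l)) ∧
      Orthonormal ℝ β ∧ (∀ L, U L ≤ span ℝ (β '' {a | a.1 ≤ L})) ∧
      (∀ a, β a ∈ U a.1) ∧ (∀ a, ∀ l < a.1, ∀ u ∈ U l, inner ℝ (β a) u = 0) := by
  have hmono : Monotone U := monotone_nat_of_le_succ hU
  let W : ℕ → Submodule ℝ H := fun l => match l with
    | 0 => U 0
    | (l+1) => (U l)ᗮ ⊓ U (l+1)
  have hWU : ∀ l, W l ≤ U l := by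
    intro l
    cases l with
    | zero => exact le_rfl
    | succ l => exact inf_le_right
  have : ∀ l, FiniteDimensional ℝ (W l) := fun l => Submodule.finiteDimensional_of_le (hWU l)
  let b : ∀ l, OrthonormalBasis (Fin (Module.finrank ℝ (W l))) ℝ (W l) := fun l =>
    stdOrthonormalBasis ℝ (W l)
  have hperp : ∀ l l', l < l' → ∀ u ∈ U l, ∀ w ∈ W l', inner ℝ w u = 0 := by
    intro l l' hl u hu w hw
    obtain ⟨l'', rfl⟩ : ∃ l'', l' = l'' + 1 := ⟨l' - 1, by omega⟩
    have hw1 : w ∈ (U l'')ᗮ := hw.1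
    have hu' : u ∈ U l'' := hmono (by omega) hu
    exact Submodule.inner_left_of_mem_orthogonal hu' hw1
  refine ⟨fun l => Module.finrank ℝ (W l), fun a => ((b a.1 a.2 : W a.1) : H), ?_, ?_, ?_, ?_, ?_⟩
  · intro l
    exact Submodule.finrank_mono (hWU l)
  · constructor
    · intro a
      have := (b a.1).orthonormal.1 a.2
      rw [← Submodule.coe_norm]
      exact this
    · rintro ⟨l, i⟩ ⟨l', i'⟩ hne
      rcases lt_trichotomy l l' with h | h | h
      · simp only
        rw [real_inner_comm]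
        exact hperp l l' h _ (hWU l (b l i).2) _ (b l' i').2
      · subst h
        have hi : i ≠ i' := fun h => hne (by rw [h])
        have := (b l).orthonormal.2 hi
        simpa using this
      · exact hperp l' l h _ (hWU l' (b l' i').2) _ (b l i).2
  · have hW : ∀ l, W l ≤ span ℝ ((fun a : (Σ l, Fin (Module.finrank ℝ (W l))) =>
        ((b a.1 a.2 : W a.1) : H)) '' {a | a.1 ≤ l}) := by
      intro l w hw
      have h1 := (b l).sum_repr ⟨w, hw⟩
      have h2 : w = ∑ i, (b l).repr ⟨w, hw⟩ i • ((b l i : W l) : H) := by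
        have := congrArg (Subtype.val) h1
        simpa using this.symm
      rw [h2]
      refine Submodule.sum_mem _ fun i _ => Submodule.smul_mem _ _ ?_
      exact subset_span ⟨⟨l, i⟩, le_refl l, rfl⟩
    intro L
    induction L with
    | zero => exact hW 0
    | succ L ih =>
      have h1 : U L ⊔ (U L)ᗮ ⊓ U (L+1) = U (L+1) :=
        Submodule.sup_orthogonal_inf_of_hasOrthogonalProjection (hU L)
      rw [← h1]
      refine sup_le ?_ (hW (L+1))
      refine ih.trans (span_mono (Set.image_mono ?_))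
      intro a ha
      exact le_trans (show a.1 ≤ L from ha) (Nat.le_succ L)
  · intro a
    exact hWU a.1 (b a.1 a.2).2
  · intro a l hl u hu
    exact hperp l a.1 hl u hu _ (b a.1 a.2).2


/-- Lebesgue measure on `[0,1]`. -/
noncomputable def nu : Measure ℝ := volume.restrict (Icc 0 1)

instance : IsProbabilityMeasure nu := ⟨by simp [nu]⟩

lemma measurable_phi (k M : ℕ) (p : Fin M × Fin k) : Measurable (phi k M p) := by
  unfold phi
  refine Measurable.indicator ?_ measurableSet_Ico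
  fun_prop

lemma memLp_phi (k M : ℕ) (p : Fin M × Fin k) (r : ℝ≥0∞) : MemLp (phi k M p) r nu := by
  obtain ⟨L, -, hL⟩ := exists_Lam k
  refine MemLp.of_bound (measurable_phi k M p).aestronglyMeasurable L (ae_of_all _ fun x => ?_)
  rw [Real.norm_eq_abs]
  exact (Finset.single_le_sum (f := fun p => |phi k M p x|) (fun _ _ => abs_nonneg _)
    (Finset.mem_univ p)).trans (hL M x)

lemma phi_refine {k M : ℕ} (hk : 1 ≤ k) (hM : 0 < M) (p : Fin M × Fin k) {x : ℝ} (h0 : 0 ≤ x)
    (h1 : x < 1) :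
    phi k M p x = ∑ p' : Fin (M*2) × Fin k, phi k M p (zz k (M*2) p') * phi k (M*2) p' x := by
  have hM2 : 0 < M * 2 := by omega
  have hM' : (0 : ℝ) < M := by exact_mod_cast hM
  have hM2' : (0 : ℝ) < ((M * 2 : ℕ) : ℝ) := by exact_mod_cast hM2
  obtain ⟨q, hq⟩ := exists_cell hM2 h0 h1
  have hsub : cell (M*2) q ⊆ cell M ((q : ℕ) / 2 : ℕ) := by
    intro y hy
    simp only [cell, Set.mem_Ico, div_le_iff₀ hM', lt_div_iff₀ hM', div_le_iff₀ hM2',
      lt_div_iff₀ hM2'] at hy ⊢
    have e1 : 2 * ((q : ℕ) / 2) ≤ (q : ℕ) := Nat.mul_div_le _ _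
    have e2 : (q : ℕ) + 1 ≤ 2 * ((q : ℕ) / 2 + 1) := by omega
    have e1' : 2 * (((q : ℕ) / 2 : ℕ) : ℝ) ≤ (q : ℝ) := by exact_mod_cast e1
    have e2' : (q : ℝ) + 1 ≤ 2 * ((((q : ℕ) / 2 : ℕ) : ℝ) + 1) := by exact_mod_cast e2
    push_cast at hy
    constructor <;> nlinarith [hy.1, hy.2]
  have hzz : ∀ a : Fin k, zz k (M*2) (q, a) ∈ cell (M*2) q := by
    intro a
    unfold zz cell
    have h1 := node_pos k a
    have h2 := node_lt_one k a
    constructor
    · gcongr; linarith
    · gcongr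
  by_cases hp : (p.1 : ℕ) = (q : ℕ) / 2
  · set R : ℝ[X] := (ell k p.2).comp (C (M : ℝ) * X - C (p.1 : ℝ)) with hR
    have hval : ∀ y ∈ cell (M*2) q, phi k M p y = R.eval y := by
      intro y hy
      have hy' : y ∈ cell M p.1 := by rw [hp]; exact hsub hy
      have := phi_of_mem (k := k) (a := p.2) hy'
      rw [Prod.mk.eta] at this
      rw [this, hR, Polynomial.eval_comp]
      simp
    have hRdeg : R.degree < (k : ℕ) := by
      have h1 : (ell k p.2).degree < (k : ℕ) := by
        unfold ell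
        rw [Lagrange.degree_basis ((node_injective k).injOn) (Finset.mem_univ _)]
        simp only [Finset.card_univ, Fintype.card_fin]
        exact_mod_cast (by omega : k - 1 < k)
      have h2 : (ell k p.2).natDegree < k := by
        have hne : (ell k p.2) ≠ 0 :=
          Lagrange.basis_ne_zero ((node_injective k).injOn) (Finset.mem_univ _)
        exact (Polynomial.natDegree_lt_iff_degree_lt hne).2 h1
      have : R.natDegree ≤ (ell k p.2).natDegree := by
        rw [hR]
        refine (Polynomial.natDegree_comp_le).trans ?_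
        have : (C (M : ℝ) * X - C (p.1 : ℝ)).natDegree ≤ 1 := by
          refine (Polynomial.natDegree_sub_le _ _).trans ?_
          rw [Polynomial.natDegree_C]
          refine max_le ?_ (Nat.zero_le _)
          exact (Polynomial.natDegree_C_mul_le _ _).trans Polynomial.natDegree_X_le
        nlinarith
      exact lt_of_le_of_lt Polynomial.degree_le_natDegree
        (by exact_mod_cast lt_of_le_of_lt this h2)
    have := TT_poly hq R hRdeg (phi k M p) (fun a => hval _ (hzz a))
    rw [hval x hq, ← this]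
    rfl
  · have hval : ∀ y ∈ cell (M*2) q, phi k M p y = 0 := by
      intro y hy
      have hy' : y ∉ cell M p.1 := by
        intro h
        exact hp (cell_unique h (hsub hy))
      have := phi_of_not_mem (k := k) (a := p.2) hy'
      rwa [Prod.mk.eta] at this
    have := TT_poly hq (0 : ℝ[X]) (by simp) (phi k M p)
      (fun a => by rw [hval _ (hzz a)]; simp)
    rw [hval x hq]
    unfold TT at this
    rw [this]; simp

/-- all indices of level at most `L` -/
def lev (n : ℕ → ℕ) (L : ℕ) : Finset (Σ l, Fin (n l)) :=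
  (Finset.range (L+1)).sigma (fun _ => Finset.univ)

lemma mem_lev {n : ℕ → ℕ} {L : ℕ} {a : Σ l, Fin (n l)} : a ∈ lev n L ↔ a.1 ≤ L := by
  simp [lev]

lemma exists_oneD {k m : ℕ} (hk : 1 ≤ k) (hm : 1 ≤ m) :
    ∃ (n : ℕ → ℕ) (b : (Σ l, Fin (n l)) → ℝ → ℝ),
      (∀ l, n l ≤ k * (m * 2 ^ l)) ∧ (∀ a, Measurable (b a)) ∧ (∀ a, MemLp (b a) 2 nu) ∧
      (∀ a a', ∫ x, b a x * b a' x ∂nu = if a = a' then 1 else 0) ∧
      (∀ L p, ∃ c : (Σ l, Fin (n l)) → ℝ,
        phi k (m * 2 ^ L) p =ᵐ[nu] fun x => ∑ a ∈ lev n L, c a * b a x) ∧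
      (∀ a, ∀ l < a.1, ∀ p, ∫ x, phi k (m * 2 ^ l) p x * b a x ∂nu = 0) := by
  classical
  let v : ∀ l, (Fin (m * 2 ^ l) × Fin k) → Lp ℝ 2 nu := fun l p =>
    (memLp_phi k (m * 2 ^ l) p 2).toLp (phi k (m * 2 ^ l) p)
  let U : ℕ → Submodule ℝ (Lp ℝ 2 nu) := fun l => span ℝ (range (v l))
  have hfin : ∀ l, FiniteDimensional ℝ (U l) := fun l =>
    FiniteDimensional.span_of_finite ℝ (finite_range _)
  have h01 : ∀ᵐ x ∂nu, 0 ≤ x ∧ x < 1 := by
    unfold nu
    rw [ae_restrict_iff' measurableSet_Icc]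
    have : ∀ᵐ x : ℝ, x ≠ 1 := by
      rw [ae_iff]; simp
    filter_upwards [this] with x hx hx2
    exact ⟨hx2.1, lt_of_le_of_ne hx2.2 hx⟩
  have hU : ∀ l, U l ≤ U (l+1) := by
    intro l
    rw [span_le]
    rintro _ ⟨p, rfl⟩
    have hpos : 0 < m * 2 ^ l := by positivity
    have e : m * 2 ^ (l+1) = (m * 2 ^ l) * 2 := by ring
    have key : v l p = ∑ p' : Fin (m * 2 ^ l * 2) × Fin k,
        phi k (m * 2 ^ l) p (zz k (m * 2 ^ l * 2) p') •
          (memLp_phi k (m * 2 ^ l * 2) p' 2).toLp (phi k (m * 2 ^ l * 2) p') := by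
      apply Lp.ext
      have h1 := MemLp.coeFn_toLp (memLp_phi k (m * 2 ^ l) p 2)
      have h2 : (⇑(∑ p' : Fin (m * 2 ^ l * 2) × Fin k,
        phi k (m * 2 ^ l) p (zz k (m * 2 ^ l * 2) p') •
          (memLp_phi k (m * 2 ^ l * 2) p' 2).toLp (phi k (m * 2 ^ l * 2) p')) : ℝ → ℝ) =ᵐ[nu]
          fun x => ∑ p' : Fin (m * 2 ^ l * 2) × Fin k,
            phi k (m * 2 ^ l) p (zz k (m * 2 ^ l * 2) p') * phi k (m * 2 ^ l * 2) p' x := by
        refine (Lp.coeFn_finsetSum _ _).trans ?_
        have h3 : ∀ p' : Fin (m * 2 ^ l * 2) × Fin k, ∀ᵐ x ∂nu,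
            (phi k (m * 2 ^ l) p (zz k (m * 2 ^ l * 2) p') •
              (memLp_phi k (m * 2 ^ l * 2) p' 2).toLp (phi k (m * 2 ^ l * 2) p') : Lp ℝ 2 nu) x
            = phi k (m * 2 ^ l) p (zz k (m * 2 ^ l * 2) p') * phi k (m * 2 ^ l * 2) p' x := by
          intro p'
          filter_upwards [Lp.coeFn_smul (phi k (m * 2 ^ l) p (zz k (m * 2 ^ l * 2) p'))
            ((memLp_phi k (m * 2 ^ l * 2) p' 2).toLp (phi k (m * 2 ^ l * 2) p')),
            MemLp.coeFn_toLp (memLp_phi k (m * 2 ^ l * 2) p' 2)] with x hx1 hx2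
          rw [hx1, Pi.smul_apply, hx2, smul_eq_mul]
        filter_upwards [ae_all_iff.2 h3] with x hx
        simp only [Finset.sum_apply]
        exact Finset.sum_congr rfl fun p' _ => hx p'
      filter_upwards [h1, h2, h01] with x hx1 hx2 hx3
      rw [hx1, hx2]
      exact phi_refine hk hpos p hx3.1 hx3.2
    rw [key]
    refine Submodule.sum_mem _ fun p' _ => Submodule.smul_mem _ _ ?_
    refine subset_span ?_
    show _ ∈ range (v (l+1))
    simp only [v]
    rw [e]
    exact ⟨p', rfl⟩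
  obtain ⟨n, β, hn, hort, hspan, hmem, hperp⟩ := exists_levels U hU
  have hinner : ∀ f g : Lp ℝ 2 nu, inner ℝ f g = ∫ x, f x * g x ∂nu := by
    intro f g
    rw [L2.inner_def]
    refine integral_congr_ae (ae_of_all _ fun x => ?_)
    simp [mul_comm]
  refine ⟨n, fun a => β a, ?_, ?_, ?_, ?_, ?_, ?_⟩
  · intro l
    refine (hn l).trans ?_
    refine (finrank_range_le_card (v l)).trans ?_
    simp [mul_comm]
  · intro a; exact (Lp.stronglyMeasurable (β a)).measurable
  · intro a; exact Lp.memLp (β a)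
  · intro a a'
    rw [← hinner]
    rw [orthonormal_iff_ite] at hort
    exact hort a a'
  · intro L p
    have h1 : v L p ∈ span ℝ (β '' {a | a.1 ≤ L}) := hspan L (subset_span ⟨p, rfl⟩)
    have h2 : (β '' {a | a.1 ≤ L}) = β '' (lev n L : Set (Σ l, Fin (n l))) := by
      congr 1; ext a; simp [mem_lev]
    rw [h2, mem_span_image_finset_iff_exists_fun'] at h1
    obtain ⟨c, hc⟩ := h1
    refine ⟨c, ?_⟩
    have h3 := MemLp.coeFn_toLp (memLp_phi k (m * 2 ^ L) p 2)
    have h4 : (⇑(∑ a ∈ lev n L, c a • β a) : ℝ → ℝ) =ᵐ[nu]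
        fun x => ∑ a ∈ lev n L, c a * β a x := by
      refine (Lp.coeFn_finsetSum _ _).trans ?_
      have h5 : ∀ a : (Σ l, Fin (n l)), ∀ᵐ x ∂nu, (c a • β a : Lp ℝ 2 nu) x = c a * β a x := by
        intro a
        filter_upwards [Lp.coeFn_smul (c a) (β a)] with x hx
        rw [hx, Pi.smul_apply, smul_eq_mul]
      filter_upwards [ae_all_iff.2 h5] with x hx
      simp only [Finset.sum_apply]
      exact Finset.sum_congr rfl fun a _ => hx a
    rw [hc] at h4
    exact h3.symm.trans h4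
  · intro a l hl p
    have h1 := hperp a l hl (v l p) (subset_span ⟨p, rfl⟩)
    rw [hinner] at h1
    rw [← h1]
    refine integral_congr_ae ?_
    filter_upwards [MemLp.coeFn_toLp (memLp_phi k (m * 2 ^ l) p 2)] with x hx
    rw [hx, mul_comm]


end Pool.Agent.H28.RI
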