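import Mathlib
import Pool.Agent.H28.RI.System

/-!
The tensor product orthonormal system on the cube.
-/

open Set MeasureTheory
open scoped ENNReal

namespace Pool.Agent.H28.RI

/-- An orthonormal system in `L^2[0,1]` adapted to the piecewise polynomials on
`m`, `2m`, `4m`, ... intervals. -/
structure Sys (k m : ℕ) where
  n : ℕ → ℕ
  b : (Σ l, Fin (n l)) → ℝ → ℝ
  card_le : ∀ l, n l ≤ k * (m * 2 ^ l)
  meas : ∀ a, Measurable (b a)
  memLp : ∀ a, MemLp (b a) 2 nu
  orth : ∀ a a', ∫ x, b a x * b a' x ∂nu = if a = a' then 1 else 0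
  rep : ∀ L p, ∃ c : (Σ l, Fin (n l)) → ℝ,
    phi k (m * 2 ^ L) p =ᵐ[nu] fun x => ∑ a ∈ lev n L, c a * b a x
  perp : ∀ a, ∀ l < a.1, ∀ p, ∫ x, phi k (m * 2 ^ l) p x * b a x ∂nu = 0

lemma nonempty_Sys {k m : ℕ} (hk : 1 ≤ k) (hm : 1 ≤ m) : Nonempty (Sys k m) := by
  obtain ⟨n, b, h1, h2, h3, h4, h5, h6⟩ := exists_oneD hk hm
  exact ⟨⟨n, b, h1, h2, h3, h4, h5, h6⟩⟩

/-- Uniform measure on the cube -/
noncomputable def mu (d : ℕ) : Measure (Fin d → ℝ) := Measure.pi (fun _ => nu)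

instance (d : ℕ) : IsProbabilityMeasure (mu d) := by unfold mu; infer_instance

lemma mu_eq (d : ℕ) : mu d = (volume : Measure (Fin d → ℝ)).restrict (cube d) := by
  have : cube d = Set.pi Set.univ (fun _ : Fin d => Icc (0:ℝ) 1) := by
    ext x; simp only [cube, Set.mem_ofPred_eq, mem_pi, mem_univ, forall_true_left, mem_Icc]
  rw [this, volume_pi, Measure.restrict_pi_pi]
  rfl

lemma ae_openCube (d : ℕ) : ∀ᵐ x ∂(mu d), x ∈ openCube d := by
  have h0 : ∀ᵐ t ∂nu, 0 < t ∧ t < 1 := by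
    unfold nu
    rw [ae_restrict_iff' measurableSet_Icc]
    have h1 : ∀ᵐ x : ℝ, x ≠ 1 := by rw [ae_iff]; simp
    have h2 : ∀ᵐ x : ℝ, x ≠ 0 := by rw [ae_iff]; simp
    filter_upwards [h1, h2] with x hx hx' hx2
    exact ⟨lt_of_le_of_ne hx2.1 (Ne.symm hx'), lt_of_le_of_ne hx2.2 hx⟩
  have h1 : ∀ i : Fin d, ∀ᵐ x ∂(mu d), 0 < x i ∧ x i < 1 := by
    intro i
    exact (measurePreserving_eval (fun _ : Fin d => nu) i).quasiMeasurePreserving.ae h0
  filter_upwards [ae_all_iff.2 h1] with x hx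
  exact hx

lemma sq_expand {α ι : Type*} [MeasurableSpace α] {μ : Measure α} [DecidableEq ι]
    (J : Finset ι) (β : ι → α → ℝ) (hβ : ∀ j, MemLp (β j) 2 μ)
    (orth : ∀ j j', ∫ x, β j x * β j' x ∂μ = if j = j' then 1 else 0)
    (u : α → ℝ) (hu : MemLp u 2 μ) (γ : ι → ℝ) :
    ∫ x, (u x - ∑ j ∈ J, γ j * β j x) ^ 2 ∂μ =
      (∫ x, u x ^ 2 ∂μ) - ∑ j ∈ J, (∫ x, u x * β j x ∂μ) ^ 2 +
        ∑ j ∈ J, (γ j - ∫ x, u x * β j x ∂μ) ^ 2 := by
  have hsq : Integrable (fun x => u x ^ 2) μ := hu.integrable_sq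
  have hub : ∀ j, Integrable (fun x => u x * β j x) μ := fun j => hu.integrable_mul (hβ j)
  have hbb : ∀ j j', Integrable (fun x => β j x * β j' x) μ :=
    fun j j' => (hβ j).integrable_mul (hβ j')
  have e1 : ∀ x, (u x - ∑ j ∈ J, γ j * β j x) ^ 2 =
      (u x ^ 2 - ∑ j ∈ J, (2 * γ j) * (u x * β j x)) +
        ∑ j ∈ J, ∑ j' ∈ J, (γ j * γ j') * (β j x * β j' x) := by
    intro x
    have : (∑ j ∈ J, γ j * β j x) ^ 2 = ∑ j ∈ J, ∑ j' ∈ J, (γ j * γ j') * (β j x * β j' x) := by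
      rw [sq, Finset.sum_mul_sum]
      refine Finset.sum_congr rfl fun j _ => Finset.sum_congr rfl fun j' _ => by ring
    rw [← this]
    have h2 : ∑ j ∈ J, (2 * γ j) * (u x * β j x) = 2 * u x * ∑ j ∈ J, γ j * β j x := by
      rw [Finset.mul_sum]
      refine Finset.sum_congr rfl fun j _ => by ring
    rw [h2]; ring
  simp_rw [e1]
  have i1 : Integrable (fun x => ∑ j ∈ J, (2 * γ j) * (u x * β j x)) μ :=
    integrable_finsetSum _ fun j _ => (hub j).const_mul _
  have i2 : ∀ j, Integrable (fun x => ∑ j' ∈ J, (γ j * γ j') * (β j x * β j' x)) μ := fun j =>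
    integrable_finsetSum _ fun j' _ => (hbb j j').const_mul _
  have i3 : Integrable (fun x => ∑ j ∈ J, ∑ j' ∈ J, (γ j * γ j') * (β j x * β j' x)) μ :=
    integrable_finsetSum _ fun j _ => i2 j
  have i4 : Integrable (fun x => u x ^ 2 - ∑ j ∈ J, (2 * γ j) * (u x * β j x)) μ := hsq.sub i1
  rw [integral_add i4 i3, integral_sub hsq i1, integral_finsetSum _
    (fun j _ => (hub j).const_mul _), integral_finsetSum _ (fun j _ => i2 j)]
  have e2 : ∀ j ∈ J, ∫ x, ∑ j' ∈ J, (γ j * γ j') * (β j x * β j' x) ∂μ = γ j ^ 2 := by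
    intro j hj
    rw [integral_finsetSum _ (fun j' _ => (hbb j j').const_mul _)]
    simp_rw [integral_const_mul, orth]
    simp [hj, sq]
  rw [Finset.sum_congr rfl e2]
  simp_rw [integral_const_mul]
  rw [sub_add, sub_add, ← Finset.sum_sub_distrib, ← Finset.sum_sub_distrib]
  congr 1
  refine Finset.sum_congr rfl fun j _ => by ring

lemma bessel {α ι : Type*} [MeasurableSpace α] {μ : Measure α} [DecidableEq ι]
    (J : Finset ι) (β : ι → α → ℝ) (hβ : ∀ j, MemLp (β j) 2 μ)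
    (orth : ∀ j j', ∫ x, β j x * β j' x ∂μ = if j = j' then 1 else 0)
    (u : α → ℝ) (hu : MemLp u 2 μ) :
    ∑ j ∈ J, (∫ x, u x * β j x ∂μ) ^ 2 ≤ ∫ x, u x ^ 2 ∂μ := by
  have h := sq_expand J β hβ orth u hu (fun j => ∫ x, u x * β j x ∂μ)
  simp only [sub_self, ne_eq, OfNat.ofNat_ne_zero, not_false_eq_true, zero_pow,
    Finset.sum_const_zero, add_zero] at h
  have h0 : 0 ≤ ∫ x, (u x - ∑ j ∈ J, (∫ x, u x * β j x ∂μ) * β j x) ^ 2 ∂μ :=
    integral_nonneg fun x => sq_nonneg _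
  linarith

namespace Sys

variable {k m : ℕ} (s : Sys k m) {d : ℕ}

/-- multi-indices -/
abbrev Idx (s : Sys k m) (d : ℕ) : Type := Fin d → (Σ l, Fin (s.n l))

/-- the tensor product functions -/
noncomputable def B (j : s.Idx d) (x : Fin d → ℝ) : ℝ := ∏ i, s.b (j i) (x i)

lemma measurable_B (j : s.Idx d) : Measurable (s.B j) := by
  unfold B
  refine Finset.measurable_prod _ fun i _ => ?_
  exact (s.meas (j i)).comp (measurable_pi_apply i)

lemma memLp_B (j : s.Idx d) : MemLp (s.B j) 2 (mu d) := by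
  rw [memLp_two_iff_integrable_sq (s.measurable_B j).aestronglyMeasurable]
  have : (fun x => s.B j x ^ 2) = fun x : Fin d → ℝ => ∏ i, (s.b (j i) (x i)) ^ 2 := by
    ext x; simp [B, Finset.prod_pow]
  rw [this]
  exact Integrable.fintype_prod (f := fun i t => (s.b (j i) t) ^ 2)
    (fun i => (s.memLp (j i)).integrable_sq)

lemma orth_B [DecidableEq (s.Idx d)] (j j' : s.Idx d) :
    ∫ x, s.B j x * s.B j' x ∂(mu d) = if j = j' then 1 else 0 := by
  classical
  have : (fun x => s.B j x * s.B j' x) = fun x : Fin d → ℝ =>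
      ∏ i, (s.b (j i) (x i) * s.b (j' i) (x i)) := by
    ext x; simp [B, Finset.prod_mul_distrib]
  rw [this]
  unfold mu
  rw [integral_fintype_prod_eq_prod (fun i t => s.b (j i) t * s.b (j' i) t)]
  simp_rw [s.orth]
  by_cases h : j = j'
  · subst h; simp
  · rw [if_neg h]
    obtain ⟨i, hi⟩ := Function.ne_iff.1 h
    exact Finset.prod_eq_zero (Finset.mem_univ i) (by rw [if_neg hi])

/-- interpolation in one coordinate is orthogonal to higher level functions -/
lemma interp_perp (g : (Fin d → ℝ) → ℝ) (i : Fin d) (j : s.Idx d) {l : ℕ}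
    (hl : l < (j i).1) (p : Fin (m * 2 ^ l) × Fin k) (z : ℝ) :
    ∫ x, g (Function.update x i z) * phi k (m * 2 ^ l) p (x i) * s.B j x ∂(mu d) = 0 := by
  obtain ⟨d, rfl⟩ : ∃ d', d = d' + 1 := ⟨d - 1, by have := i.pos; omega⟩
  have hmp := measurePreserving_piFinSuccAbove (fun _ : Fin (d+1) => nu) i
  have hsymm := hmp.symm
  unfold mu
  rw [← hsymm.integral_comp (MeasurableEquiv.piFinSuccAbove (fun _ => ℝ) i).symm.measurableEmbedding]
  have : (fun y : ℝ × (Fin d → ℝ) =>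
      g (Function.update ((MeasurableEquiv.piFinSuccAbove (fun _ => ℝ) i).symm y) i z) *
        phi k (m * 2 ^ l) p ((MeasurableEquiv.piFinSuccAbove (fun _ => ℝ) i).symm y i) *
        s.B j ((MeasurableEquiv.piFinSuccAbove (fun _ => ℝ) i).symm y)) =
      fun y => (phi k (m * 2 ^ l) p y.1 * s.b (j i) y.1) *
        (g (Fin.insertNth i z y.2) * ∏ i', s.b (j (i.succAbove i')) (y.2 i')) := by
    ext y
    have e1 : (MeasurableEquiv.piFinSuccAbove (fun _ => ℝ) i).symm y = Fin.insertNth i y.1 y.2 := rfl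
    rw [e1]
    unfold B
    rw [Fin.prod_univ_succAbove _ i]
    simp only [Fin.insertNth_apply_same, Fin.insertNth_apply_succAbove, Fin.update_insertNth]
    ring
  rw [this]
  rw [integral_prod_mul (fun t => phi k (m * 2 ^ l) p t * s.b (j i) t)
    (fun y : Fin d → ℝ => g (Fin.insertNth i z y) * ∏ i', s.b (j (i.succAbove i')) (y i'))]
  rw [s.perp (j i) l hl p, zero_mul]

end Sys

end Pool.Agent.H28.RI
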