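import Mathlib
import Pool.Agent.H28.RI.Tensor

/-!
Approximation of functions in the class by the tensor product system.
-/

open Set MeasureTheory
open scoped ENNReal
namespace Pool.Agent.H28.RI

lemma abs_phi_le {k : ℕ} {Lam : ℝ} (hLam : ∀ (M : ℕ) (x : ℝ),
    ∑ p : Fin M × Fin k, |phi k M p x| ≤ Lam) (M : ℕ) (p : Fin M × Fin k) (x : ℝ) :
    |phi k M p x| ≤ Lam :=
  (Finset.single_le_sum (f := fun p => |phi k M p x|) (fun _ _ => abs_nonneg _)
    (Finset.mem_univ p)).trans (hLam M x)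

lemma measurable_update_const {d : ℕ} (i : Fin d) (z : ℝ) :
    Measurable (fun x : Fin d → ℝ => Function.update x i z) := by
  rw [measurable_pi_iff]
  intro j
  by_cases h : j = i
  · subst h; simp
  · simp only [Function.update_of_ne h]; exact measurable_pi_apply j

lemma memLp_of_bound {d : ℕ} {g : (Fin d → ℝ) → ℝ} (hgm : Measurable g) (C : ℝ)
    (hgb : ∀ x ∈ openCube d, |g x| ≤ C) (r : ℝ≥0∞) : MemLp g r (mu d) := by
  refine MemLp.of_bound hgm.aestronglyMeasurable C ?_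
  filter_upwards [ae_openCube d] with x hx
  exact hgb x hx

lemma integral_sq_le {d : ℕ} {g : (Fin d → ℝ) → ℝ} (hgm : Measurable g) (C : ℝ) 
    (hgb : ∀ x ∈ openCube d, |g x| ≤ C) : ∫ x, g x ^ 2 ∂(mu d) ≤ C ^ 2 := by
  have h1 : ∫ x, g x ^ 2 ∂(mu d) ≤ ∫ x, C ^ 2 ∂(mu d) := by
    refine integral_mono_ae (memLp_of_bound hgm C hgb 2).integrable_sq (integrable_const _) ?_
    filter_upwards [ae_openCube d] with x hx
    have := hgb x hx
    rw [← sq_abs]
    gcongr
  simpa using h1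

namespace Sys

variable {k m : ℕ} (s : Sys k m) {d : ℕ}

lemma coef_sum_le [DecidableEq (s.Idx d)] {g : (Fin d → ℝ) → ℝ} (hgm : Measurable g)
    (hgb : ∀ x ∈ openCube d, |g x| ≤ 1) (l : ℕ) (i : Fin d) {ε : ℝ}
    (hint : ∀ x ∈ openCube d, |g x - ∑ p : Fin (m * 2 ^ l) × Fin k,
      g (Function.update x i (zz k (m * 2 ^ l) p)) * phi k (m * 2 ^ l) p (x i)| ≤ ε)
    (J : Finset (s.Idx d)) :
    ∑ j ∈ J.filter (fun j => l < (j i).1), (∫ x, g x * s.B j x ∂(mu d)) ^ 2 ≤ ε ^ 2 := by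
  obtain ⟨Lam, -, hLam⟩ := exists_Lam k
  set r : (Fin d → ℝ) → ℝ := fun x => g x - ∑ p : Fin (m * 2 ^ l) × Fin k,
      g (Function.update x i (zz k (m * 2 ^ l) p)) * phi k (m * 2 ^ l) p (x i) with hr
  have hterm_meas : ∀ p : Fin (m * 2 ^ l) × Fin k, Measurable (fun x : Fin d → ℝ =>
      g (Function.update x i (zz k (m * 2 ^ l) p)) * phi k (m * 2 ^ l) p (x i)) := fun p =>
    (hgm.comp (measurable_update_const i _)).mul
      ((measurable_phi k _ p).comp (measurable_pi_apply i))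
  have hterm_bd : ∀ p : Fin (m * 2 ^ l) × Fin k, ∀ x ∈ openCube d,
      |g (Function.update x i (zz k (m * 2 ^ l) p)) * phi k (m * 2 ^ l) p (x i)| ≤ Lam := by
    intro p x hx
    rw [abs_mul]
    have h1 := hgb _ (update_mem_openCube hx i ⟨zz_pos p, zz_lt_one p⟩)
    have h2 := abs_phi_le hLam (m * 2 ^ l) p (x i)
    calc _ ≤ 1 * Lam := mul_le_mul h1 h2 (abs_nonneg _) zero_le_one
      _ = _ := one_mul _
  have hrm : Measurable r := hgm.sub (Finset.measurable_sum _ fun p _ => hterm_meas p)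
  have hrL : MemLp r 2 (mu d) := memLp_of_bound hrm ε hint 2
  have hgL : MemLp g 2 (mu d) := memLp_of_bound hgm 1 hgb 2
  have key : ∀ j ∈ J.filter (fun j => l < (j i).1), ∫ x, g x * s.B j x ∂(mu d) =
      ∫ x, r x * s.B j x ∂(mu d) := by
    intro j hj
    have hj' : l < (j i).1 := (Finset.mem_filter.1 hj).2
    have e1 : ∀ x, r x * s.B j x = g x * s.B j x - ∑ p : Fin (m * 2 ^ l) × Fin k,
      g (Function.update x i (zz k (m * 2 ^ l) p)) * phi k (m * 2 ^ l) p (x i) * s.B j x := by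
      intro x
      rw [hr]
      simp only
      rw [sub_mul, Finset.sum_mul]
    simp_rw [e1]
    rw [integral_sub, integral_finsetSum]
    · simp_rw [s.interp_perp g i j hj']
      simp
    · intro p _
      exact (memLp_of_bound (hterm_meas p) Lam (hterm_bd p) 2).integrable_mul (s.memLp_B j)
    · exact hgL.integrable_mul (s.memLp_B j)
    · refine integrable_finsetSum _ fun p _ => ?_
      exact (memLp_of_bound (hterm_meas p) Lam (hterm_bd p) 2).integrable_mul (s.memLp_B j)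
  rw [Finset.sum_congr rfl (fun j hj => by rw [key j hj])]
  refine (bessel _ s.B s.memLp_B s.orth_B r hrL).trans ?_
  exact integral_sq_le hrm ε hint

/-- the box of multi-indices with all levels at most `L` -/
noncomputable def box (s : Sys k m) (d L : ℕ) : Finset (s.Idx d) :=
  Fintype.piFinset (fun _ => lev s.n L)

lemma mem_box {L : ℕ} {j : s.Idx d} : j ∈ s.box d L ↔ ∀ i, (j i).1 ≤ L := by
  simp [box, mem_lev]

/-- the sparse index set -/
noncomputable def JJ (s : Sys k m) (d : ℕ) : Finset (s.Idx d) :=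
  (s.box d d).filter (fun j => ∑ i, (j i).1 ≤ d)

lemma mem_JJ {j : s.Idx d} : j ∈ s.JJ d ↔ ∑ i, (j i).1 ≤ d := by
  simp only [JJ, Finset.mem_filter, mem_box, and_iff_right_iff_imp]
  intro h i
  exact (Finset.single_le_sum (f := fun i => (j i).1) (fun _ _ => Nat.zero_le _)
    (Finset.mem_univ i)).trans h

lemma card_JJ (s : Sys k m) (d : ℕ) : ((s.JJ d).card : ℝ) ≤ (8 * k * m : ℝ) ^ d := by
  have h1 : ((s.JJ d).card : ℝ) = ∑ j ∈ s.JJ d, (1 : ℝ) := by simp
  have h2 : ∑ j ∈ s.JJ d, (1 : ℝ) ≤ ∑ j ∈ s.JJ d, (4:ℝ) ^ d * ∏ i, (1/4 : ℝ) ^ ((j i).1) := by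
    refine Finset.sum_le_sum fun j hj => ?_
    rw [mem_JJ] at hj
    rw [Finset.prod_pow_eq_pow_sum]
    have : (4:ℝ) ^ d * (1/4) ^ (∑ i, (j i).1) = 4 ^ d / 4 ^ (∑ i, (j i).1) := by
      rw [one_div, inv_pow]; rfl
    rw [this, le_div_iff₀ (by positivity), one_mul]
    exact pow_le_pow_right₀ (by norm_num) hj
  have h3 : ∑ j ∈ s.JJ d, (4:ℝ) ^ d * ∏ i, (1/4 : ℝ) ^ ((j i).1) ≤
      ∑ j ∈ s.box d d, (4:ℝ) ^ d * ∏ i, (1/4 : ℝ) ^ ((j i).1) := by
    refine Finset.sum_le_sum_of_subset_of_nonneg (Finset.filter_subset _ _) ?_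
    intro j _ _
    positivity
  have h4 : ∑ j ∈ s.box d d, (4:ℝ) ^ d * ∏ i, (1/4 : ℝ) ^ ((j i).1) =
      4 ^ d * ∏ _i : Fin d, ∑ a ∈ lev s.n d, (1/4 : ℝ) ^ a.1 := by
    rw [← Finset.mul_sum, Finset.prod_univ_sum]
    rfl
  have h5 : ∑ a ∈ lev s.n d, (1/4 : ℝ) ^ a.1 ≤ 2 * k * m := by
    unfold lev
    rw [Finset.sum_sigma]
    simp only [Finset.sum_const, Finset.card_univ, Fintype.card_fin, nsmul_eq_mul]
    calc ∑ l ∈ Finset.range (d+1), (s.n l : ℝ) * (1/4) ^ l
        ≤ ∑ l ∈ Finset.range (d+1), (k * m : ℝ) * (1/2) ^ l := by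
          refine Finset.sum_le_sum fun l _ => ?_
          have h := s.card_le l
          have h' : (s.n l : ℝ) ≤ k * (m * 2 ^ l) := by exact_mod_cast h
          calc (s.n l : ℝ) * (1/4) ^ l ≤ (k * (m * 2 ^ l)) * (1/4) ^ l := by gcongr
            _ = (k * m : ℝ) * (2 ^ l * (1/4) ^ l) := by ring
            _ = (k * m : ℝ) * (1/2) ^ l := by rw [← mul_pow]; norm_num
      _ = (k * m : ℝ) * ∑ l ∈ Finset.range (d+1), (1/2 : ℝ) ^ l := by rw [Finset.mul_sum]
      _ ≤ (k * m : ℝ) * 2 := by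
          gcongr
          rw [geom_sum_eq (by norm_num)]
          have : (0:ℝ) ≤ (1/2 : ℝ) ^ (d+1) := by positivity
          rw [div_le_iff_of_neg (by norm_num)]
          linarith
      _ = _ := by ring
  rw [h1]
  refine (h2.trans h3).trans ?_
  rw [h4, Finset.prod_const, Finset.card_univ, Fintype.card_fin, ← mul_pow]
  refine pow_le_pow_left₀ ?_ ?_ d
  · have : 0 ≤ ∑ a ∈ lev s.n d, (1/4 : ℝ) ^ a.1 := Finset.sum_nonneg fun _ _ => by positivity
    positivity
  · linarith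


/-- Tensor product interpolation lies in the span of the low level functions. -/
lemma rep_II (s : Sys k m) (L : ℕ) (g : (Fin d → ℝ) → ℝ) :
    ∃ γ : s.Idx d → ℝ, II k (m * 2 ^ L) g =ᵐ[mu d]
      fun x => ∑ j ∈ s.box d L, γ j * s.B j x := by
  choose c hc using fun p => s.rep L p
  refine ⟨fun j => ∑ p : Fin d → Fin (m * 2 ^ L) × Fin k,
    g (fun i => zz k (m * 2 ^ L) (p i)) * ∏ i, c (p i) (j i), ?_⟩
  have h1 : ∀ i : Fin d, ∀ p, ∀ᵐ x ∂(mu d), phi k (m * 2 ^ L) p (x i) =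
      ∑ a ∈ lev s.n L, c p a * s.b a (x i) := by
    intro i p
    exact (measurePreserving_eval (fun _ : Fin d => nu) i).quasiMeasurePreserving.ae (hc p)
  have h2 := ae_all_iff.2 (fun i => ae_all_iff.2 (h1 i))
  filter_upwards [h2] with x hx
  unfold II
  simp_rw [hx]
  simp_rw [Finset.prod_univ_sum]
  simp_rw [Finset.mul_sum, Finset.sum_mul]
  rw [Finset.sum_comm]
  refine Finset.sum_congr rfl fun j _ => ?_
  refine Finset.sum_congr rfl fun p _ => ?_
  rw [Finset.prod_mul_distrib]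
  unfold B
  ring

lemma box_mono {L L' : ℕ} (h : L ≤ L') : s.box d L ⊆ s.box d L' := by
  intro j hj
  rw [mem_box] at hj ⊢
  exact fun i => (hj i).trans h

lemma measurable_II (M : ℕ) (g : (Fin d → ℝ) → ℝ) : Measurable (II k M g) := by
  unfold II
  refine Finset.measurable_sum _ fun p _ => ?_
  refine Measurable.const_mul ?_ _
  refine Finset.measurable_prod _ fun i _ => ?_
  exact (measurable_phi k M (p i)).comp (measurable_pi_apply i)

theorem approx (s : Sys k m) (hk : 1 ≤ k) (hm : 1 ≤ m) (hd : 1 ≤ d) {Lam : ℝ}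
    (hLam1 : 1 ≤ Lam) (hLam : ∀ (M : ℕ) (x : ℝ), ∑ p : Fin M × Fin k, |phi k M p x| ≤ Lam)
    {g : (Fin d → ℝ) → ℝ} (hgm : Measurable g) (hgb : ∀ x ∈ openCube d, |g x| ≤ 1)
    (hint : ∀ M : ℕ, 0 < M → ∀ i, ∀ x ∈ openCube d, |g x - ∑ p : Fin M × Fin k,
      g (Function.update x i (zz k M p)) * phi k M p (x i)| ≤ (1 + Lam) * ((M : ℝ)⁻¹) ^ k) :
    ∫ x, g x ^ 2 ∂(mu d) - ∑ j ∈ s.JJ d, (∫ x, g x * s.B j x ∂(mu d)) ^ 2 ≤
      2 * ((1 + Lam) * ((m : ℝ)⁻¹) ^ k) ^ 2 := by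
  classical
  have hgL : MemLp g 2 (mu d) := memLp_of_bound hgm 1 hgb 2
  set c : s.Idx d → ℝ := fun j => ∫ x, g x * s.B j x ∂(mu d) with hc
  set E : ℝ := (1 + Lam) * ((m : ℝ)⁻¹) ^ k with hE
  have hE0 : 0 ≤ E := by positivity
  have hm' : (0 : ℝ) < m := by exact_mod_cast hm
  have hd' : (0 : ℝ) < d := by exact_mod_cast hd
  have hMpos : ∀ l : ℕ, 0 < m * 2 ^ l := fun l => by positivity
  -- the level errors
  have heps : ∀ l : ℕ, ((1 + Lam) * (((m * 2 ^ l : ℕ) : ℝ)⁻¹) ^ k) ^ 2 ≤ E ^ 2 * (1/4) ^ l := by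
    intro l
    have e1 : (1 + Lam) * (((m * 2 ^ l : ℕ) : ℝ)⁻¹) ^ k = E * ((1/2 : ℝ) ^ l) ^ k := by
      rw [hE]; push_cast
      rw [mul_inv, mul_pow]
      have : ((2 : ℝ) ^ l)⁻¹ = (1/2) ^ l := by rw [one_div, inv_pow]
      rw [this]; ring
    rw [e1, mul_pow]
    gcongr
    have h1 : ((1/2 : ℝ) ^ l) ^ k ≤ (1/2 : ℝ) ^ l :=
      pow_le_of_le_one (by positivity) (pow_le_one₀ (by norm_num) (by norm_num)) (by omega)
    calc (((1/2 : ℝ) ^ l) ^ k) ^ 2 ≤ ((1/2 : ℝ) ^ l) ^ 2 := by gcongr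
      _ = (1/4) ^ l := by rw [← pow_mul, mul_comm, pow_mul]; norm_num
  -- Step A
  have stepA : ∀ L, ∑ j ∈ (s.box d L).filter (fun j => ¬ (∑ i, (j i).1 ≤ d)), c j ^ 2 ≤
      2 * E ^ 2 := by
    intro L
    have h1 : ∑ j ∈ (s.box d L).filter (fun j => ¬ (∑ i, (j i).1 ≤ d)), c j ^ 2 ≤
        ∑ j ∈ s.box d L, (1 / (d : ℝ)) * ∑ i, ((j i).1 : ℝ) * c j ^ 2 := by
      calc _ ≤ ∑ j ∈ (s.box d L).filter (fun j => ¬ (∑ i, (j i).1 ≤ d)),
            (1 / (d : ℝ)) * ∑ i, ((j i).1 : ℝ) * c j ^ 2 := by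
            refine Finset.sum_le_sum fun j hj => ?_
            have hj' := (Finset.mem_filter.1 hj).2
            push Not at hj'
            rw [← Finset.sum_mul, ← mul_assoc]
            refine le_mul_of_one_le_left (sq_nonneg _) ?_
            rw [one_div, inv_mul_eq_div, one_le_div hd']
            have : (d : ℝ) ≤ ((∑ i, (j i).1 : ℕ) : ℝ) := by exact_mod_cast hj'.le
            simpa using this
        _ ≤ _ := by
            refine Finset.sum_le_sum_of_subset_of_nonneg (Finset.filter_subset _ _) ?_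
            intro j _ _
            positivity
    refine h1.trans ?_
    have h2 : ∀ i : Fin d, ∑ j ∈ s.box d L, ((j i).1 : ℝ) * c j ^ 2 ≤ 2 * E ^ 2 := by
      intro i
      have h3 : ∀ j ∈ s.box d L, ((j i).1 : ℝ) * c j ^ 2 =
          ∑ l ∈ Finset.range L, if l < (j i).1 then c j ^ 2 else 0 := by
        intro j hj
        rw [mem_box] at hj
        rw [← Finset.sum_filter, Finset.sum_const, nsmul_eq_mul]
        congr 2
        have : (Finset.range L).filter (fun l => l < (j i).1) = Finset.range (j i).1 := by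
          ext l
          simp only [Finset.mem_filter, Finset.mem_range]
          have := hj i
          omega
        rw [this, Finset.card_range]
      rw [Finset.sum_congr rfl h3, Finset.sum_comm]
      calc ∑ l ∈ Finset.range L, ∑ j ∈ s.box d L, (if l < (j i).1 then c j ^ 2 else 0)
          ≤ ∑ l ∈ Finset.range L, E ^ 2 * (1/4) ^ l := by
            refine Finset.sum_le_sum fun l _ => ?_
            rw [← Finset.sum_filter]
            refine le_trans ?_ (heps l)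
            exact s.coef_sum_le hgm hgb l i (hint _ (hMpos l) i) _
        _ = E ^ 2 * ∑ l ∈ Finset.range L, (1/4 : ℝ) ^ l := by rw [Finset.mul_sum]
        _ ≤ E ^ 2 * 2 := by
            gcongr
            rw [geom_sum_eq (by norm_num)]
            have : (0:ℝ) ≤ (1/4 : ℝ) ^ L := by positivity
            rw [div_le_iff_of_neg (by norm_num)]
            linarith
        _ = _ := by ring
    rw [← Finset.mul_sum, Finset.sum_comm]
    calc (1 / (d : ℝ)) * ∑ i, ∑ j ∈ s.box d L, ((j i).1 : ℝ) * c j ^ 2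
        ≤ (1 / (d : ℝ)) * ∑ _i : Fin d, 2 * E ^ 2 := by
          gcongr with i _
          exact h2 i
      _ = 2 * E ^ 2 := by
          rw [Finset.sum_const, Finset.card_univ, Fintype.card_fin, nsmul_eq_mul]
          field_simp
  -- Step B
  set η : ℕ → ℝ := fun L => (1 + Lam) * (((m * 2 ^ L : ℕ) : ℝ)⁻¹) ^ k * d * Lam ^ d with hη
  have stepB : ∀ L, ∫ x, g x ^ 2 ∂(mu d) - ∑ j ∈ s.box d L, c j ^ 2 ≤ η L ^ 2 := by
    intro L
    obtain ⟨γ, hγ⟩ := s.rep_II (d := d) L g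
    have h1 := sq_expand (s.box d L) s.B s.memLp_B s.orth_B g hgL γ
    have h2 : ∫ x, (g x - ∑ j ∈ s.box d L, γ j * s.B j x) ^ 2 ∂(mu d) =
        ∫ x, (g x - II k (m * 2 ^ L) g x) ^ 2 ∂(mu d) := by
      refine integral_congr_ae ?_
      filter_upwards [hγ] with x hx
      rw [hx]
    have h3 : ∫ x, (g x - II k (m * 2 ^ L) g x) ^ 2 ∂(mu d) ≤ η L ^ 2 := by
      refine integral_sq_le (hgm.sub (measurable_II _ g)) (η L) ?_
      have hpos := hMpos L
      exact II_err hLam1 (by positivity) (hLam _) d g (hint _ hpos)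
    have h4 : 0 ≤ ∑ j ∈ s.box d L, (γ j - ∫ x, g x * s.B j x ∂(mu d)) ^ 2 :=
      Finset.sum_nonneg fun _ _ => sq_nonneg _
    rw [h2] at h1
    linarith
  -- Step C
  have stepC : ∀ L ≥ d, ∫ x, g x ^ 2 ∂(mu d) - ∑ j ∈ s.JJ d, c j ^ 2 ≤
      η L ^ 2 + 2 * E ^ 2 := by
    intro L hL
    have h1 := stepA L
    have h2 := stepB L
    have h3 : ∑ j ∈ s.box d L, c j ^ 2 = ∑ j ∈ s.JJ d, c j ^ 2 +
        ∑ j ∈ (s.box d L).filter (fun j => ¬ (∑ i, (j i).1 ≤ d)), c j ^ 2 := by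
      rw [← Finset.sum_filter_add_sum_filter_not (s.box d L) (fun j => ∑ i, (j i).1 ≤ d)]
      congr 2
      ext j
      rw [mem_JJ, Finset.mem_filter, mem_box]
      constructor
      · rintro ⟨-, h⟩; exact h
      · intro h
        refine ⟨fun i => ?_, h⟩
        exact ((Finset.single_le_sum (f := fun i => (j i).1) (fun _ _ => Nat.zero_le _)
          (Finset.mem_univ i)).trans h).trans hL
    linarith
  have hlim : Filter.Tendsto (fun L => η L ^ 2 + 2 * E ^ 2) Filter.atTop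
      (nhds (0 ^ 2 + 2 * E ^ 2)) := by
    refine Filter.Tendsto.add_const _ (Filter.Tendsto.pow ?_ 2)
    have h1 : Filter.Tendsto (fun L : ℕ => (((m * 2 ^ L : ℕ) : ℝ)⁻¹)) Filter.atTop (nhds 0) := by
      refine Filter.Tendsto.inv_tendsto_atTop ?_
      refine tendsto_natCast_atTop_atTop.comp ?_
      refine Filter.Tendsto.const_mul_atTop' (by omega) ?_
      exact tendsto_pow_atTop_atTop_of_one_lt (by norm_num)
    have h2 := ((h1.pow k).const_mul (1 + Lam)).mul_const (d : ℝ) |>.mul_const (Lam ^ d)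
    have h0 : (0:ℝ) ^ k = 0 := zero_pow (by omega)
    simpa [hη, h0] using h2
  have := ge_of_tendsto hlim (Filter.eventually_atTop.2 ⟨d, stepC⟩)
  simpa using this

end Sys

end Pool.Agent.H28.RI
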