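import Mathlib
import Pool.Agent.H28.RI.Algo
import Pool.Agent.H28.RI.Approx

/-!
The error of the algorithm.
-/

open Set MeasureTheory
open scoped ENNReal

namespace Pool.Agent.H28.RI

/-- nearest point of the cube -/
noncomputable def clampPt {d : ℕ} (x : Fin d → ℝ) : cube d :=
  ⟨fun i => max 0 (min 1 (x i)), fun i => ⟨le_max_left _ _, by
    simp⟩⟩

/-- extension of a function on the cube -/
noncomputable def ext {d : ℕ} (f : (Fin d → ℝ) → ℝ) (x : Fin d → ℝ) : ℝ := f (clampPt x)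

lemma ext_eq {d : ℕ} (f : (Fin d → ℝ) → ℝ) {x : Fin d → ℝ} (hx : x ∈ cube d) :
    ext f x = f x := by
  unfold ext clampPt
  congr 1
  ext i
  simp [(hx i).1, (hx i).2]

lemma openCube_subset (d : ℕ) : openCube d ⊆ cube d := fun _ hx i => ⟨(hx i).1.le, (hx i).2.le⟩

lemma continuous_ext {d : ℕ} {f : (Fin d → ℝ) → ℝ} (hf : ContinuousOn f (cube d)) :
    Continuous (ext f) := by
  have h1 : Continuous (fun x : Fin d → ℝ => ((clampPt x : cube d) : Fin d → ℝ)) := by
    unfold clampPt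
    simp only
    fun_prop
  exact hf.comp_continuous h1 (fun x => (clampPt x).2)

lemma measurableSet_cube (d : ℕ) : MeasurableSet (cube d) := by
  have : cube d = Set.pi Set.univ (fun _ : Fin d => Icc (0:ℝ) 1) := by
    ext x; simp only [cube, Set.mem_ofPred_eq, mem_pi, mem_univ, forall_true_left, mem_Icc]
  rw [this]
  exact MeasurableSet.univ_pi fun _ => measurableSet_Icc

lemma S_eq {d : ℕ} (f : (Fin d → ℝ) → ℝ) : S f = ∫ x, ext f x ∂(mu d) := by
  unfold S
  rw [mu_eq]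
  exact setIntegral_congr_fun (measurableSet_cube d) fun x hx => (ext_eq f hx).symm

lemma ext_bound {d k : ℕ} {f : (Fin d → ℝ) → ℝ} (hf : f ∈ F d k) :
    ∀ x ∈ openCube d, |ext f x| ≤ 1 := by
  intro x hx
  rw [ext_eq f (openCube_subset d hx)]
  have := hf.2.2 0 (Nat.zero_le _) (fun i => i.elim0) x hx
  simpa using this

lemma ext_interp {d k : ℕ} (hk : 1 ≤ k) {f : (Fin d → ℝ) → ℝ} (hf : f ∈ F d k) {Lam : ℝ}
    (hLam : ∀ (M : ℕ) (x : ℝ), ∑ p : Fin M × Fin k, |phi k M p x| ≤ Lam) :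
    ∀ M : ℕ, 0 < M → ∀ i, ∀ x ∈ openCube d, |ext f x - ∑ p : Fin M × Fin k,
      ext f (Function.update x i (zz k M p)) * phi k M p (x i)| ≤
      (1 + Lam) * ((M : ℝ)⁻¹) ^ k := by
  intro M hM i x hx
  obtain ⟨h1, h2⟩ := section_prop hf hx i
  have h3 := TT_err hk hLam h1 h2 hM (x := x i) (hx i)
  unfold TT at h3
  simp only [Function.update_eq_self] at h3
  rw [ext_eq f (openCube_subset d hx)]
  have e : ∀ p : Fin M × Fin k, ext f (Function.update x i (zz k M p)) =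
      f (Function.update x i (zz k M p)) := fun p =>
    ext_eq f (openCube_subset d (update_mem_openCube hx i ⟨zz_pos p, zz_lt_one p⟩))
  simp_rw [e]
  exact h3

section main

variable {k m : ℕ} (s : Sys k m) (d n₁ n₂ : ℕ)

/-- index set of the queries -/
abbrev QIdx (k m d n₁ n₂ : ℕ) : Type := (Fin d → Fin m × Fin k) ⊕ (Fin n₁ ⊕ Fin n₂)

/-- sample space -/
abbrev Om (d n₁ n₂ : ℕ) : Type := (Fin n₁ → Fin d → ℝ) × (Fin n₂ → Fin d → ℝ)

/-- the points -/
noncomputable def pts (k m d n₁ n₂ : ℕ) (ω : Om d n₁ n₂) : QIdx k m d n₁ n₂ → (Fin d → ℝ)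
  | .inl p => fun i => zz k m (p i)
  | .inr (.inl i) => ω.1 i
  | .inr (.inr i) => ω.2 i

/-- piecewise polynomial determined by the values -/
noncomputable def Iv (k m d n₁ n₂ : ℕ) (v : QIdx k m d n₁ n₂ → ℝ) (x : Fin d → ℝ) : ℝ :=
  ∑ p : Fin d → Fin m × Fin k, v (.inl p) * ∏ i, phi k m (p i) (x i)

/-- estimated coefficients -/
noncomputable def chat (ω : Om d n₁ n₂) (v : QIdx k m d n₁ n₂ → ℝ) (j : s.Idx d) : ℝ :=
  (n₁ : ℝ)⁻¹ * ∑ i, (v (.inr (.inl i)) - Iv k m d n₁ n₂ v (ω.1 i)) * s.B j (ω.1 i)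

/-- the output -/
noncomputable def outp (ω : Om d n₁ n₂) (v : QIdx k m d n₁ n₂ → ℝ) : ℝ :=
  ∫ x, Iv k m d n₁ n₂ v x ∂(mu d) +
    ∑ j ∈ s.JJ d, chat s d n₁ n₂ ω v j * ∫ x, s.B j x ∂(mu d) +
    (n₂ : ℝ)⁻¹ * ∑ i, (v (.inr (.inr i)) - Iv k m d n₁ n₂ v (ω.2 i) -
      ∑ j ∈ s.JJ d, chat s d n₁ n₂ ω v j * s.B j (ω.2 i))

theorem main_error (hk : 1 ≤ k) (hm : 1 ≤ m) (hd : 1 ≤ d) (hn₁ : 0 < n₁) (hn₂ : 0 < n₂)
    {Lam : ℝ} (hLam1 : 1 ≤ Lam)
    (hLam : ∀ (M : ℕ) (x : ℝ), ∑ p : Fin M × Fin k, |phi k M p x| ≤ Lam)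
    {f : (Fin d → ℝ) → ℝ} (hf : f ∈ F d k) {E U K : ℝ}
    (hE : E = (1 + Lam) * ((m : ℝ)⁻¹) ^ k) (hU : U = E * d * Lam ^ d) (hK : 0 ≤ K)
    (hK2 : (n₂ : ℝ)⁻¹ * (2 * E ^ 2 + (8 * k * m : ℝ) ^ d * ((n₁ : ℝ)⁻¹ * U ^ 2)) ≤ K ^ 2) :
    upperIntegral ((Measure.pi fun _ => mu d).prod (Measure.pi fun _ => mu d))
      (fun ω : Om d n₁ n₂ => ENNReal.ofReal
        |S f - outp s d n₁ n₂ ω (fun q => f (clampPt (pts k m d n₁ n₂ ω q)))|) ≤
      ENNReal.ofReal K := by
  classical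
  have hE0 : 0 ≤ E := by rw [hE]; positivity
  set g := ext f with hg
  have hgc : Continuous g := continuous_ext hf.1
  have hgm : Measurable g := hgc.measurable
  have hgb := ext_bound hf
  have hgL : MemLp g 2 (mu d) := memLp_of_bound hgm 1 hgb 2
  have hint := ext_interp hk hf hLam
  set u : (Fin d → ℝ) → ℝ := fun x => g x - II k m g x with hu
  have hIm : Measurable (II k m g : (Fin d → ℝ) → ℝ) := Sys.measurable_II m g
  have hum : Measurable u := hgm.sub hIm
  have hub : ∀ x ∈ openCube d, |u x| ≤ U := by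
    rw [hU, hE]
    exact II_err hLam1 (by positivity) (hLam _) d g (hint _ (by omega))
  have hU0 : 0 ≤ U := by rw [hU]; positivity
  have huL : MemLp u 2 (mu d) := memLp_of_bound hum U hub 2
  set c : s.Idx d → ℝ := fun j => ∫ x, u x * s.B j x ∂(mu d) with hc
  set D : ℝ := ∫ x, u x ^ 2 ∂(mu d) - ∑ j ∈ s.JJ d, c j ^ 2 with hD
  have hD2 : D ≤ 2 * E ^ 2 := by
    have h1 := s.approx hk hm hd hLam1 hLam hgm hgb hint
    rw [← hE] at h1
    obtain ⟨γ, hγ⟩ := s.rep_II (d := d) 0 g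
    have hγ' : II k m g =ᵐ[mu d] fun x => ∑ j ∈ s.JJ d, (if j ∈ s.box d 0 then γ j else 0) *
        s.B j x := by
      have e : m * 2 ^ 0 = m := by simp
      rw [e] at hγ
      filter_upwards [hγ] with x hx
      rw [hx]
      rw [← Finset.sum_filter_add_sum_filter_not (s.JJ d) (fun j => j ∈ s.box d 0)]
      have h2 : ∑ j ∈ (s.JJ d).filter (fun j => ¬ j ∈ s.box d 0),
          (if j ∈ s.box d 0 then γ j else 0) * s.B j x = 0 := by
        refine Finset.sum_eq_zero fun j hj => ?_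
        rw [if_neg (Finset.mem_filter.1 hj).2, zero_mul]
      rw [h2, add_zero]
      have h3 : (s.JJ d).filter (fun j => j ∈ s.box d 0) = s.box d 0 := by
        ext j
        simp only [Finset.mem_filter, and_iff_right_iff_imp]
        intro hj
        rw [Sys.mem_box] at hj
        rw [Sys.mem_JJ]
        calc ∑ i, (j i).1 ≤ ∑ _i : Fin d, 0 := Finset.sum_le_sum fun i _ => hj i
          _ ≤ d := by simp
      rw [h3]
      refine Finset.sum_congr rfl fun j hj => ?_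
      rw [if_pos hj]
    set γ' : s.Idx d → ℝ := fun j => if j ∈ s.box d 0 then γ j else 0
    set δ : s.Idx d → ℝ := fun j => ∫ x, g x * s.B j x ∂(mu d) with hδ
    have h2 := sq_expand (s.JJ d) s.B s.memLp_B s.orth_B g hgL δ
    have h3 := sq_expand (s.JJ d) s.B s.memLp_B s.orth_B u huL (fun j => δ j - γ' j)
    have h4 : ∫ x, (u x - ∑ j ∈ s.JJ d, (δ j - γ' j) * s.B j x) ^ 2 ∂(mu d) =
        ∫ x, (g x - ∑ j ∈ s.JJ d, δ j * s.B j x) ^ 2 ∂(mu d) := by
      refine integral_congr_ae ?_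
      filter_upwards [hγ'] with x hx
      simp only [hu]
      rw [hx]
      congr 1
      simp_rw [sub_mul]
      rw [Finset.sum_sub_distrib]
      ring
    have h5 : 0 ≤ ∑ j ∈ s.JJ d, ((δ j - γ' j) - ∫ x, u x * s.B j x ∂(mu d)) ^ 2 :=
      Finset.sum_nonneg fun _ _ => sq_nonneg _
    have h6 : ∑ j ∈ s.JJ d, (δ j - ∫ x, g x * s.B j x ∂(mu d)) ^ 2 = 0 := by
      simp [hδ]
    linarith
  -- the estimated coefficients
  set ch : (Fin n₁ → Fin d → ℝ) → s.Idx d → ℝ := fun Y j =>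
    (n₁ : ℝ)⁻¹ * ∑ i, u (Y i) * s.B j (Y i) with hch
  set v : (Fin n₁ → Fin d → ℝ) → (Fin d → ℝ) → ℝ := fun Y x =>
    u x - ∑ j ∈ s.JJ d, ch Y j * s.B j x with hv
  have hvL : ∀ Y, MemLp (v Y) 2 (mu d) := fun Y =>
    huL.sub (memLp_finsetSum _ fun j _ => (s.memLp_B j).const_mul _)
  have hone : MemLp (fun _ : Fin d → ℝ => (1:ℝ)) 2 (mu d) := memLp_const 1
  have hIL : MemLp (II k m g : (Fin d → ℝ) → ℝ) 2 (mu d) := by
    have : (II k m g : (Fin d → ℝ) → ℝ) = fun x => g x - u x := by ext x; simp [hu]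
    rw [this]; exact hgL.sub huL
  have herr : ∀ ω : Om d n₁ n₂,
      S f - outp s d n₁ n₂ ω (fun q => f (clampPt (pts k m d n₁ n₂ ω q))) =
      -((n₂ : ℝ)⁻¹ * ∑ i, v ω.1 (ω.2 i) - ∫ x, v ω.1 x ∂(mu d)) := by
    intro ω
    have e1 : ∀ x, Iv k m d n₁ n₂ (fun q => f (clampPt (pts k m d n₁ n₂ ω q))) x =
        II k m g x := fun x => rfl
    have e2 : ∀ j, chat s d n₁ n₂ ω (fun q => f (clampPt (pts k m d n₁ n₂ ω q))) j =
        ch ω.1 j := fun j => rfl
    unfold outp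
    simp_rw [e1, e2]
    have e3 : ∫ x, v ω.1 x ∂(mu d) = ∫ x, g x ∂(mu d) - ∫ x, II k m g x ∂(mu d) -
        ∑ j ∈ s.JJ d, ch ω.1 j * ∫ x, s.B j x ∂(mu d) := by
      simp only [hv, hu]
      rw [integral_sub, integral_sub (hgL.integrable (by norm_num)) (hIL.integrable (by norm_num)),
        integral_finsetSum]
      · simp_rw [integral_const_mul]
      · intro j _; exact ((s.memLp_B j).integrable (by norm_num)).const_mul _
      · exact (hgL.integrable (by norm_num)).sub (hIL.integrable (by norm_num))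
      · exact integrable_finsetSum _ fun j _ =>
          ((s.memLp_B j).integrable (by norm_num)).const_mul _
    rw [e3, S_eq]
    have e4 : ∀ i, f (clampPt (pts k m d n₁ n₂ ω (Sum.inr (Sum.inr i)))) - II k m g (ω.2 i) -
        ∑ j ∈ s.JJ d, ch ω.1 j * s.B j (ω.2 i) = v ω.1 (ω.2 i) := fun i => rfl
    simp_rw [e4]
    ring
  simp_rw [herr, abs_neg]
  -- measurability
  have hchm : ∀ j, Measurable (fun Y => ch Y j) := by
    intro j
    simp only [hch]
    refine Measurable.const_mul (Finset.measurable_sum _ fun i _ => ?_) _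
    exact (hum.comp (measurable_pi_apply i)).mul ((s.measurable_B j).comp (measurable_pi_apply i))
  have hem : Measurable (fun ω : Om d n₁ n₂ =>
      (n₂ : ℝ)⁻¹ * ∑ i, v ω.1 (ω.2 i) - ∫ x, v ω.1 x ∂(mu d)) := by
    refine Measurable.sub ?_ ?_
    · refine Measurable.const_mul (Finset.measurable_sum _ fun i _ => ?_) _
      simp only [hv]
      refine Measurable.sub ?_ (Finset.measurable_sum _ fun j _ => ?_)
      · exact hum.comp ((measurable_pi_apply i).comp measurable_snd)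
      · exact ((hchm j).comp measurable_fst).mul
          ((s.measurable_B j).comp ((measurable_pi_apply i).comp measurable_snd))
    · have : ∀ ω : Om d n₁ n₂, ∫ x, v ω.1 x ∂(mu d) = ∫ x, u x ∂(mu d) -
          ∑ j ∈ s.JJ d, ch ω.1 j * ∫ x, s.B j x ∂(mu d) := by
        intro ω
        simp only [hv]
        rw [integral_sub (huL.integrable (by norm_num)), integral_finsetSum]
        · simp_rw [integral_const_mul]
        · intro j _; exact ((s.memLp_B j).integrable (by norm_num)).const_mul _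
        · exact integrable_finsetSum _ fun j _ =>
            ((s.memLp_B j).integrable (by norm_num)).const_mul _
      simp_rw [this]
      refine measurable_const.sub (Finset.measurable_sum _ fun j _ => ?_)
      exact ((hchm j).comp measurable_fst).mul_const _
  refine (upperIntegral_le_lintegral _ hem.abs.ennreal_ofReal (fun _ => le_rfl)).trans ?_
  refine mean_abs_le _ hem hK ?_
  rw [lintegral_prod _ (by exact ((hem.pow_const 2).ennreal_ofReal).aemeasurable)]
  -- inner integral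
  have hin : ∀ Y : Fin n₁ → Fin d → ℝ, ∫⁻ Z, ENNReal.ofReal
      (((n₂ : ℝ)⁻¹ * ∑ i, v Y (Z i) - ∫ x, v Y x ∂(mu d)) ^ 2) ∂(Measure.pi fun _ : Fin n₂ => mu d) ≤
      ENNReal.ofReal ((n₂ : ℝ)⁻¹ * (D + ∑ j ∈ s.JJ d, (ch Y j - c j) ^ 2)) := by
    intro Y
    obtain ⟨h1, h2⟩ := mc (mu d) hn₂ (v Y) (hvL Y)
    rw [← ofReal_integral_eq_lintegral_ofReal h1.integrable_sq (ae_of_all _ fun _ => sq_nonneg _)]
    refine ENNReal.ofReal_le_ofReal (h2.trans ?_)
    have h3 := sq_expand (s.JJ d) s.B s.memLp_B s.orth_B u huL (ch Y)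
    rw [h3]
  have hvar : ∀ j, MemLp (fun Y => ch Y j - c j) 2 (Measure.pi fun _ : Fin n₁ => mu d) ∧
      ∫ Y, (ch Y j - c j) ^ 2 ∂(Measure.pi fun _ : Fin n₁ => mu d) ≤ (n₁ : ℝ)⁻¹ * U ^ 2 := by
    intro j
    have huB : MemLp (fun x => u x * s.B j x) 2 (mu d) := by
      have h1 : MemLp u ∞ (mu d) := memLp_of_bound hum U hub ∞
      exact (s.memLp_B j).mul (p := ∞) (q := 2) h1
    obtain ⟨h1, h2⟩ := mc (mu d) hn₁ (fun x => u x * s.B j x) huB
    refine ⟨h1, h2.trans ?_⟩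
    gcongr
    have h3 : ∫ x, s.B j x ^ 2 ∂(mu d) = 1 := by
      have := s.orth_B j j
      rw [if_pos rfl] at this
      rw [← this]
      congr 1; ext x; ring
    calc ∫ x, (u x * s.B j x) ^ 2 ∂(mu d) ≤ ∫ x, U ^ 2 * s.B j x ^ 2 ∂(mu d) := by
          refine integral_mono_ae huB.integrable_sq ((s.memLp_B j).integrable_sq.const_mul _) ?_
          filter_upwards [ae_openCube d] with x hx
          rw [mul_pow]
          have := hub x hx
          have h4 : u x ^ 2 ≤ U ^ 2 := by rw [← sq_abs]; gcongr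
          exact mul_le_mul_of_nonneg_right h4 (sq_nonneg _)
      _ = U ^ 2 := by rw [integral_const_mul, h3, mul_one]
  calc ∫⁻ Y, ∫⁻ Z, ENNReal.ofReal
        (((n₂ : ℝ)⁻¹ * ∑ i, v Y (Z i) - ∫ x, v Y x ∂(mu d)) ^ 2)
          ∂(Measure.pi fun _ : Fin n₂ => mu d) ∂(Measure.pi fun _ : Fin n₁ => mu d)
      ≤ ∫⁻ Y, ENNReal.ofReal ((n₂ : ℝ)⁻¹ * (D + ∑ j ∈ s.JJ d, (ch Y j - c j) ^ 2))
          ∂(Measure.pi fun _ : Fin n₁ => mu d) := lintegral_mono hin
    _ = ENNReal.ofReal (∫ Y, (n₂ : ℝ)⁻¹ * (D + ∑ j ∈ s.JJ d, (ch Y j - c j) ^ 2)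
          ∂(Measure.pi fun _ : Fin n₁ => mu d)) := by
        rw [ofReal_integral_eq_lintegral_ofReal]
        · refine Integrable.const_mul ?_ _
          refine (integrable_const _).add ?_
          exact integrable_finsetSum _ fun j _ => (hvar j).1.integrable_sq
        · refine ae_of_all _ fun Y => ?_
          have h0 : 0 ≤ D := by
            have := bessel (s.JJ d) s.B s.memLp_B s.orth_B u huL
            simp only [hD, hc]; linarith
          have h1 : 0 ≤ ∑ j ∈ s.JJ d, (ch Y j - c j) ^ 2 := Finset.sum_nonneg fun _ _ => sq_nonneg _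
          have h2 : (0:ℝ) ≤ (n₂ : ℝ)⁻¹ := by positivity
          exact mul_nonneg h2 (add_nonneg h0 h1)
    _ ≤ ENNReal.ofReal (K ^ 2) := by
        refine ENNReal.ofReal_le_ofReal (le_trans ?_ hK2)
        rw [integral_const_mul]
        gcongr
        rw [integral_add (integrable_const _)
          (integrable_finsetSum _ fun j _ => (hvar j).1.integrable_sq), integral_finsetSum _
          (fun j _ => (hvar j).1.integrable_sq)]
        refine add_le_add ?_ ?_
        · simpa using hD2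
        · calc ∑ j ∈ s.JJ d, ∫ Y, (ch Y j - c j) ^ 2 ∂(Measure.pi fun _ : Fin n₁ => mu d)
              ≤ ∑ j ∈ s.JJ d, (n₁ : ℝ)⁻¹ * U ^ 2 := Finset.sum_le_sum fun j _ => (hvar j).2
            _ = ((s.JJ d).card : ℝ) * ((n₁ : ℝ)⁻¹ * U ^ 2) := by
                rw [Finset.sum_const, nsmul_eq_mul]
            _ ≤ _ := by
                gcongr
                exact s.card_JJ d

end main

end Pool.Agent.H28.RI
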