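import Mathlib
import Pool.Agent.H28.RI.Upper

/-!
The lower bound: one function value.
-/

open Set MeasureTheory
open scoped ENNReal ContDiff

namespace Pool.Agent.H28.RI

/-- The points used by an algorithm on the input zero. -/
def Alg.path {d : ℕ} : Alg d → List (cube d)
  | .out _ => []
  | .query x next => x :: Alg.path (next 0)

lemma Alg.length_path {d : ℕ} : ∀ T : Alg d, T.path.length = T.cost (fun _ => 0) := by
  intro T
  induction T with
  | out r => simp [Alg.path, Alg.cost]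
  | query x next ih => simp [Alg.path, Alg.cost, ih 0]

lemma Alg.output_eq {d : ℕ} (f : (Fin d → ℝ) → ℝ) : ∀ T : Alg d,
    (∀ x ∈ T.path, f x = 0) → T.output f = T.output (fun _ => 0) := by
  intro T
  induction T with
  | out r => intro _; simp [Alg.output]
  | query x next ih =>
    intro h
    simp only [Alg.path, List.mem_cons, forall_eq_or_imp] at h
    simp only [Alg.output]
    rw [h.1]
    exact ih 0 h.2

/-- a smooth bump function on the line -/
noncomputable def psi : ContDiffBump (0 : ℝ) := ⟨1/2, 1, by norm_num, by norm_num⟩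

/-- four bumps with disjoint supports -/
noncomputable def hb (i : Fin 4) (t : ℝ) : ℝ := psi (8 * t - (2 * (i : ℝ) + 1))

lemma hb_contDiff (i : Fin 4) : ContDiff ℝ ∞ (hb i) := by
  unfold hb
  exact psi.contDiff.comp (by fun_prop)

lemma hb_nonneg (i : Fin 4) (t : ℝ) : 0 ≤ hb i t := psi.nonneg

lemma hb_disjoint {i i' : Fin 4} (h : i ≠ i') (t : ℝ) : hb i t = 0 ∨ hb i' t = 0 := by
  unfold hb
  by_contra hcon
  push Not at hcon
  have h1 : 8 * t - (2 * (i : ℝ) + 1) ∈ Function.support psi := hcon.1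
  have h2 : 8 * t - (2 * (i' : ℝ) + 1) ∈ Function.support psi := hcon.2
  rw [psi.support_eq] at h1 h2
  simp only [psi, Metric.mem_ball, dist_zero_right, Real.norm_eq_abs, abs_lt] at h1 h2
  have h3 : (i : ℝ) < i' + 1 := by linarith [h1.1, h2.1, h1.2, h2.2]
  have h4 : (i' : ℝ) < i + 1 := by linarith [h1.1, h2.1, h1.2, h2.2]
  have h3' : (i : ℕ) < i' + 1 := by exact_mod_cast h3
  have h4' : (i' : ℕ) < i + 1 := by exact_mod_cast h4
  exact h (Fin.ext (by omega))

lemma hb_integral (i : Fin 4) : (1 / 8 : ℝ) ≤ ∫ t, hb i t ∂nu := by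
  have hi : (i : ℝ) ≤ 3 := by
    have : (i : ℕ) ≤ 3 := by omega
    exact_mod_cast this
  have hi0 : (0:ℝ) ≤ i := by positivity
  set a : ℝ := (2 * (i : ℝ) + 1 - 1/2) / 8 with ha
  set b : ℝ := (2 * (i : ℝ) + 1 + 1/2) / 8 with hb'
  have hsub : Icc a b ⊆ Icc (0:ℝ) 1 := by
    apply Icc_subset_Icc
    · rw [ha]; linarith
    · rw [hb']; linarith
  have h1 : ∫ t, (Icc a b).indicator (fun _ => (1:ℝ)) t ∂nu = 1 / 8 := by
    rw [integral_indicator measurableSet_Icc]
    unfold nu
    rw [Measure.restrict_restrict measurableSet_Icc, inter_eq_left.2 hsub]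
    simp only [integral_const, MeasurableSet.univ, measureReal_restrict_apply, univ_inter,
      Real.volume_real_Icc, smul_eq_mul, mul_one]
    rw [ha, hb', max_eq_left]
    · ring
    · linarith
  rw [← h1]
  refine integral_mono ?_ ?_ ?_
  · exact (integrable_const _).indicator measurableSet_Icc
  · refine Integrable.mono' (integrable_const (1:ℝ)) (hb_contDiff i).continuous.aestronglyMeasurable
      (ae_of_all _ fun t => ?_)
    rw [Real.norm_eq_abs, abs_of_nonneg (hb_nonneg i t)]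
    exact psi.le_one
  · intro t
    simp only
    by_cases ht : t ∈ Icc a b
    · rw [indicator_of_mem ht]
      have : hb i t = 1 := by
        unfold hb
        apply psi.one_of_mem_closedBall
        simp only [psi, Metric.mem_closedBall, dist_zero_right, Real.norm_eq_abs, abs_le]
        rw [ha, hb'] at ht
        constructor <;> linarith [ht.1, ht.2]
      rw [this]
    · rw [indicator_of_notMem ht]
      exact hb_nonneg i t

lemma hb_compact (i : Fin 4) : HasCompactSupport (hb i) := by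
  have h1 : HasCompactSupport (psi : ℝ → ℝ) := psi.hasCompactSupport
  have : hb i = (psi : ℝ → ℝ) ∘ (fun t => 8 * t - (2 * (i : ℝ) + 1)) := rfl
  rw [this]
  let e : ℝ ≃ₜ ℝ := (Homeomorph.mulLeft₀ (8:ℝ) (by norm_num)).trans
    (Homeomorph.addRight (-(2 * (i : ℝ) + 1)))
  have he : (fun t => 8 * t - (2 * (i : ℝ) + 1)) = e := by
    ext t; simp [e]; ring
  rw [he]
  exact h1.comp_homeomorph e

lemma exists_bound (k : ℕ) : ∃ A : ℝ, 1 ≤ A ∧ ∀ i : Fin 4, ∀ j ≤ k, ∀ t,
    ‖iteratedFDeriv ℝ j (hb i) t‖ ≤ A := by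
  have h1 : ∀ i : Fin 4, ∀ j : ℕ, ∃ A, ∀ t, ‖iteratedFDeriv ℝ j (hb i) t‖ ≤ A := by
    intro i j
    have hc : Continuous (iteratedFDeriv ℝ j (hb i)) :=
      (hb_contDiff i).continuous_iteratedFDeriv (by exact_mod_cast le_top)
    have hs : HasCompactSupport (iteratedFDeriv ℝ j (hb i)) := (hb_compact i).iteratedFDeriv j
    obtain ⟨A, hA⟩ := hc.bounded_above_of_compact_support hs
    exact ⟨A, hA⟩
  choose A hA using h1
  refine ⟨1 + ∑ i, ∑ j ∈ Finset.range (k+1), |A i j|, ?_, ?_⟩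
  · have : 0 ≤ ∑ i, ∑ j ∈ Finset.range (k+1), |A i j| :=
      Finset.sum_nonneg fun _ _ => Finset.sum_nonneg fun _ _ => abs_nonneg _
    linarith
  · intro i j hj t
    have h2 : |A i j| ≤ ∑ j ∈ Finset.range (k+1), |A i j| :=
      Finset.single_le_sum (f := fun j => |A i j|) (fun _ _ => abs_nonneg _)
        (Finset.mem_range.2 (by omega))
    have h3 : ∑ j ∈ Finset.range (k+1), |A i j| ≤ ∑ i, ∑ j ∈ Finset.range (k+1), |A i j| :=
      Finset.single_le_sum (f := fun i => ∑ j ∈ Finset.range (k+1), |A i j|)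
        (fun _ _ => Finset.sum_nonneg fun _ _ => abs_nonneg _) (Finset.mem_univ i)
    have h4 := hA i j t
    have h5 := le_abs_self (A i j)
    linarith

/-- the test functions -/
noncomputable def gb {d : ℕ} (hd : 0 < d) (c : ℝ) (i : Fin 4) (x : Fin d → ℝ) : ℝ :=
  c * hb i (x ⟨0, hd⟩)

lemma gb_mem {d k : ℕ} (hd : 0 < d) {A : ℝ} (hA1 : 1 ≤ A)
    (hA : ∀ i : Fin 4, ∀ j ≤ k, ∀ t, ‖iteratedFDeriv ℝ j (hb i) t‖ ≤ A) (i : Fin 4) :
    gb hd A⁻¹ i ∈ F d k := by
  set L : (Fin d → ℝ) →L[ℝ] ℝ := ContinuousLinearMap.proj ⟨0, hd⟩ with hL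
  have e : gb hd A⁻¹ i = A⁻¹ • (hb i ∘ L) := by
    ext x; simp [gb, hL]
  have hcd : ContDiff ℝ ∞ (gb hd A⁻¹ i) := by
    have h0 : gb hd A⁻¹ i = fun x => A⁻¹ * (hb i ∘ L) x := by
      ext x; simp [gb, hL]
    rw [h0]
    exact contDiff_const.mul ((hb_contDiff i).comp L.contDiff)
  refine ⟨hcd.continuous.continuousOn, (hcd.of_le (by exact_mod_cast le_top)).contDiffOn, ?_⟩
  intro j hj v x _
  have h1 : iteratedFDeriv ℝ j (gb hd A⁻¹ i) x = A⁻¹ • iteratedFDeriv ℝ j (hb i ∘ L) x := by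
    rw [e]
    have hcd2 : ContDiffAt ℝ j (hb i ∘ L) x :=
      (((hb_contDiff i).comp L.contDiff).of_le (by exact_mod_cast le_top)).contDiffAt
    exact iteratedFDeriv_const_smul_apply (a := A⁻¹) (i := j) (f := hb i ∘ L) hcd2
  rw [h1, L.iteratedFDeriv_comp_right (hb_contDiff i) x (by exact_mod_cast le_top)]
  rw [_root_.smul_apply, ContinuousMultilinearMap.compContinuousLinearMap_apply,
    smul_eq_mul, abs_mul, abs_of_nonneg (by positivity : (0:ℝ) ≤ A⁻¹)]
  have h2 : |(iteratedFDeriv ℝ j (hb i) (L x)) fun i => L (Pi.single (v i) 1)| ≤ A := by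
    rw [← Real.norm_eq_abs]
    refine ((iteratedFDeriv ℝ j (hb i) (L x)).le_opNorm _).trans ?_
    have h3 : ∏ i : Fin j, ‖L (Pi.single (v i) 1)‖ ≤ 1 := by
      refine Finset.prod_le_one (fun _ _ => norm_nonneg _) fun i _ => ?_
      simp only [hL, ContinuousLinearMap.proj_apply]
      by_cases hi : (⟨0, hd⟩ : Fin d) = v i
      · rw [hi]; simp
      · rw [Pi.single_eq_of_ne hi]; simp
    calc _ ≤ A * 1 := mul_le_mul (hA i j hj _) h3
          (Finset.prod_nonneg fun _ _ => norm_nonneg _) (by positivity)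
      _ = A := mul_one _
  calc A⁻¹ * _ ≤ A⁻¹ * A := by gcongr
    _ = 1 := by field_simp

lemma gb_integral {d : ℕ} (hd : 0 < d) {c : ℝ} (hc : 0 ≤ c) (i : Fin 4) :
    c / 8 ≤ S (gb hd c i) := by
  unfold S
  rw [← mu_eq]
  have h1 : ∫ x, gb hd c i x ∂(mu d) = c * ∫ t, hb i t ∂nu := by
    unfold gb
    rw [integral_const_mul]
    congr 1
    have hmp := measurePreserving_eval (fun _ : Fin d => nu) ⟨0, hd⟩
    rw [← hmp.map_eq, integral_map hmp.measurable.aemeasurable]
    · rfl
    · exact (hb_contDiff i).continuous.aestronglyMeasurable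
  rw [h1]
  have := hb_integral i
  calc c / 8 = c * (1/8) := by ring
    _ ≤ _ := by gcongr

/-- the number of affected test functions is at most the number of points -/
lemma card_affected {d : ℕ} (hd : 0 < d) (c : ℝ) (l : List (cube d)) :
    (Finset.univ.filter (fun i : Fin 4 => ∃ x ∈ l, gb hd c i x ≠ 0)).card ≤ l.length := by
  classical
  induction l with
  | nil => simp
  | cons x l ih =>
    have h1 : (Finset.univ.filter (fun i : Fin 4 => ∃ y ∈ x :: l, gb hd c i y ≠ 0)) ⊆
        (Finset.univ.filter (fun i : Fin 4 => gb hd c i x ≠ 0)) ∪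
        (Finset.univ.filter (fun i : Fin 4 => ∃ y ∈ l, gb hd c i y ≠ 0)) := by
      intro i
      simp only [List.mem_cons, Finset.mem_filter, Finset.mem_univ, true_and, Finset.mem_union]
      rintro ⟨y, hy | hy, hy2⟩
      · subst hy; exact Or.inl hy2
      · exact Or.inr ⟨y, hy, hy2⟩
    have h2 : (Finset.univ.filter (fun i : Fin 4 => gb hd c i x ≠ 0)).card ≤ 1 := by
      rw [Finset.card_le_one]
      intro i hi i' hi'
      by_contra hne
      simp only [Finset.mem_filter, Finset.mem_univ, true_and, gb, ne_eq, mul_eq_zero,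
        not_or] at hi hi'
      rcases hb_disjoint hne ((x : Fin d → ℝ) ⟨0, hd⟩) with h | h
      · exact hi.2 h
      · exact hi'.2 h
    calc _ ≤ _ := Finset.card_le_card h1
      _ ≤ _ := Finset.card_union_le _ _
      _ ≤ 1 + l.length := add_le_add h2 ih
      _ = (x :: l).length := by simp [add_comm]

/-- pointwise lower bound for the sum of the errors -/
lemma pointwise {d : ℕ} (hd : 0 < d) {c : ℝ} (hc : 0 ≤ c) (T : Alg d)
    (hT : T.cost (fun _ => 0) ≤ 2) :
    c / 4 ≤ ∑ i : Fin 4, (|S (gb hd c i) - T.output (gb hd c i)| +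
      |S (fun _ : Fin d → ℝ => (0:ℝ)) - T.output (fun _ => 0)|) := by
  classical
  set aff := Finset.univ.filter (fun i : Fin 4 => ∃ x ∈ T.path, gb hd c i x ≠ 0) with haff
  have h1 : aff.card ≤ 2 := by
    refine (card_affected hd c T.path).trans ?_
    rw [Alg.length_path]; exact hT
  have h2 : 2 ≤ (affᶜ).card := by
    rw [Finset.card_compl, Fintype.card_fin]; omega
  have hS0 : S (fun _ : Fin d → ℝ => (0:ℝ)) = 0 := by simp [S]
  have h3 : ∀ i ∈ affᶜ, c / 8 ≤ |S (gb hd c i) - T.output (gb hd c i)| +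
      |S (fun _ : Fin d → ℝ => (0:ℝ)) - T.output (fun _ => 0)| := by
    intro i hi
    simp only [haff, Finset.mem_compl, Finset.mem_filter, Finset.mem_univ, true_and, not_exists,
      not_and, not_not] at hi
    rw [Alg.output_eq (gb hd c i) T hi, hS0]
    have h4 := gb_integral hd hc i
    have h5 : S (gb hd c i) ≤ |S (gb hd c i) - T.output (fun _ => 0)| +
        |0 - T.output (fun _ => 0)| := by
      have h6 := le_abs_self (S (gb hd c i) - T.output (fun _ => 0))
      have h7 := neg_abs_le (0 - T.output (fun _ : Fin d → ℝ => (0:ℝ)))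
      linarith
    linarith
  calc c / 4 = 2 * (c / 8) := by ring
    _ ≤ (affᶜ).card * (c / 8) := by
        gcongr
        exact_mod_cast h2
    _ = ∑ i ∈ affᶜ, c / 8 := by rw [Finset.sum_const, nsmul_eq_mul]
    _ ≤ ∑ i ∈ affᶜ, (|S (gb hd c i) - T.output (gb hd c i)| +
      |S (fun _ : Fin d → ℝ => (0:ℝ)) - T.output (fun _ => 0)|) := Finset.sum_le_sum h3
    _ ≤ _ := Finset.sum_le_sum_of_subset_of_nonneg (Finset.subset_univ _)
        fun i _ _ => by positivity

lemma zero_mem (d k : ℕ) : (fun _ : Fin d → ℝ => (0:ℝ)) ∈ F d k := by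
  refine ⟨continuousOn_const, contDiffOn_const, ?_⟩
  intro j _ v x _
  have : iteratedFDeriv ℝ j (fun _ : Fin d → ℝ => (0:ℝ)) x = 0 := by
    simp
  rw [this]; simp

theorem lower_bound (k : ℕ) : ∃ c : ℝ, 0 < c ∧ ∀ d : ℕ, 1 ≤ d → ENNReal.ofReal c ≤ eRan 1 d k := by
  obtain ⟨A, hA1, hA⟩ := exists_bound k
  set c : ℝ := A⁻¹ with hc
  have hc0 : 0 < c := by positivity
  refine ⟨c / 48, by positivity, ?_⟩
  intro d hd
  unfold eRan
  refine le_iInf₂ fun Al hcard => ?_
  let _ : MeasurableSpace Al.Ω := Al.mΩ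
  have : IsProbabilityMeasure Al.μ := Al.prob
  by_contra hlt
  push Not at hlt
  -- measurable majorants of the errors
  have hmaj : ∀ f ∈ F d k, ∃ h : Al.Ω → ℝ≥0∞, Measurable h ∧
      (∀ w, ENNReal.ofReal |S f - (Al.alg w).output f| ≤ h w) ∧
      ∫⁻ w, h w ∂Al.μ < ENNReal.ofReal (c / 48) := by
    intro f hf
    have h1 : upperIntegral Al.μ (fun w => ENNReal.ofReal |S f - (Al.alg w).output f|) <
        ENNReal.ofReal (c / 48) := by
      refine lt_of_le_of_lt ?_ hlt
      unfold RandAlg.err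
      exact le_iSup₂ (f := fun f (_ : f ∈ F d k) => upperIntegral Al.μ
        (fun w => ENNReal.ofReal |S f - (Al.alg w).output f|)) f hf
    unfold upperIntegral at h1
    rw [iInf_lt_iff] at h1
    obtain ⟨h, h1⟩ := h1
    rw [iInf_lt_iff] at h1
    obtain ⟨hm, h1⟩ := h1
    rw [iInf_lt_iff] at h1
    obtain ⟨hle, h1⟩ := h1
    exact ⟨h, hm, hle, h1⟩
  obtain ⟨h0, h0m, h0le, h0int⟩ := hmaj _ (zero_mem d k)
  have hg : ∀ i, gb hd c i ∈ F d k := fun i => gb_mem hd hA1 hA i
  choose h hm hle hint using fun i => hmaj _ (hg i)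
  -- Markov
  set N : Al.Ω → ℝ≥0∞ := fun w => (((Al.alg w).cost (fun _ => 0) : ℕ) : ℝ≥0∞) with hN
  have hNm : Measurable N := by
    have := Al.meas _ (zero_mem d k)
    exact (measurable_from_top (f := fun n : ℕ => (n : ℝ≥0∞))).comp this
  have hNint : ∫⁻ w, N w ∂Al.μ ≤ 1 := by
    refine le_trans ?_ (by simpa using hcard)
    unfold RandAlg.card
    exact le_iSup₂ (f := fun f (_ : f ∈ F d k) =>
      ∫⁻ w, (((Al.alg w).cost f : ℕ) : ℝ≥0∞) ∂Al.μ) _ (zero_mem d k)
  set G : Set Al.Ω := {w | 3 ≤ N w} with hG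
  have hGm : MeasurableSet G := measurableSet_le measurable_const hNm
  have hmarkov : 3 * Al.μ G ≤ 1 := (mul_meas_ge_le_lintegral hNm 3).trans hNint
  have hG3 : Al.μ G ≤ 1 / 3 := by
    rw [ENNReal.le_div_iff_mul_le (Or.inl (by norm_num)) (Or.inl (by norm_num)), mul_comm]
    exact hmarkov
  have hGc : (2 / 3 : ℝ≥0∞) ≤ Al.μ Gᶜ := by
    rw [prob_compl_eq_one_sub hGm]
    refine le_trans ?_ (tsub_le_tsub_left hG3 1)
    have : (2/3 : ℝ≥0∞) + 1/3 = 1 := by
      rw [ENNReal.div_add_div_same]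
      norm_num
      exact ENNReal.div_self (by norm_num) (by norm_num)
    exact ENNReal.le_sub_of_add_le_right (by simp) this.le
  -- the integral of the sum
  have hlow : ENNReal.ofReal (c / 4) * Al.μ Gᶜ ≤
      ∫⁻ w, ∑ i : Fin 4, (h i w + h0 w) ∂Al.μ := by
    rw [← setLIntegral_const]
    refine le_trans ?_ (setLIntegral_le_lintegral Gᶜ _)
    refine setLIntegral_mono' hGm.compl fun w hw => ?_
    have hw' : (Al.alg w).cost (fun _ => 0) ≤ 2 := by
      by_contra hcon
      push Not at hcon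
      apply hw
      show (3 : ℝ≥0∞) ≤ (((Al.alg w).cost (fun _ => 0) : ℕ) : ℝ≥0∞)
      exact_mod_cast hcon
    have hp := pointwise hd hc0.le (Al.alg w) hw'
    refine (ENNReal.ofReal_le_ofReal hp).trans ?_
    rw [ENNReal.ofReal_sum_of_nonneg (fun i _ => by positivity)]
    refine Finset.sum_le_sum fun i _ => ?_
    rw [ENNReal.ofReal_add (abs_nonneg _) (abs_nonneg _)]
    exact add_le_add (hle i w) (h0le w)
  have hup : ∫⁻ w, ∑ i : Fin 4, (h i w + h0 w) ∂Al.μ <
      ENNReal.ofReal (c / 6) := by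
    rw [lintegral_finsetSum Finset.univ (f := fun i w => h i w + h0 w)
      (fun i _ => (hm i).add h0m)]
    have e1 : ∀ i : Fin 4, ∫⁻ w, (h i w + h0 w) ∂Al.μ =
        ∫⁻ w, h i w ∂Al.μ + ∫⁻ w, h0 w ∂Al.μ := fun i => lintegral_add_left (hm i) _
    simp_rw [e1]
    have e2 : ENNReal.ofReal (c / 6) = ∑ _i : Fin 4, (ENNReal.ofReal (c / 48) +
        ENNReal.ofReal (c / 48)) := by
      rw [← ENNReal.ofReal_add (by positivity) (by positivity), Finset.sum_const,
        Finset.card_univ, Fintype.card_fin, nsmul_eq_mul]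
      rw [show ((4 : ℕ) : ℝ≥0∞) = ENNReal.ofReal 4 by simp]
      rw [← ENNReal.ofReal_mul (by norm_num)]
      congr 1; ring
    rw [e2]
    refine ENNReal.sum_lt_sum_of_nonempty Finset.univ_nonempty fun i _ => ?_
    exact ENNReal.add_lt_add (hint i) h0int
  have hfin : ENNReal.ofReal (c / 6) ≤ ENNReal.ofReal (c / 4) * Al.μ Gᶜ := by
    calc ENNReal.ofReal (c / 6) = ENNReal.ofReal (c / 4) * (2/3) := by
          have : (2/3 : ℝ≥0∞) = ENNReal.ofReal (2/3) := by
            rw [ENNReal.ofReal_div_of_pos (by norm_num)]; simp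
          rw [this, ← ENNReal.ofReal_mul (by positivity)]
          congr 1; ring
      _ ≤ _ := by gcongr
  exact absurd (hfin.trans hlow) (not_le.2 hup)

end Pool.Agent.H28.RI
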