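import Mathlib
import Pool.Agent.H28.RI.Upper

/-!
The upper bound for the minimal errors.
-/

open Set MeasureTheory
open scoped ENNReal

namespace Pool.Agent.H28.RI

/-- plain Monte Carlo -/
lemma eRan_mc {k d n : ℕ} (hn : 1 ≤ n) :
    eRan n d k ≤ ENNReal.ofReal ((n : ℝ) ^ (-(1/2) : ℝ)) := by
  have hn' : (0:ℝ) < n := by exact_mod_cast hn
  refine eRan_le (ι := Fin n) (by simp) (Ω := Fin n → Fin d → ℝ) (Measure.pi fun _ => mu d)
    (fun ω i => clampPt (ω i)) (fun _ v => (n : ℝ)⁻¹ * ∑ i, v i) _ ?_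
  intro f hf
  have hgc : Continuous (ext f) := continuous_ext hf.1
  have hgm : Measurable (ext f) := hgc.measurable
  have hgb := ext_bound hf
  have hgL : MemLp (ext f) 2 (mu d) := memLp_of_bound hgm 1 hgb 2
  obtain ⟨h1, h2⟩ := mc (mu d) hn (ext f) hgL
  have e1 : ∀ ω : Fin n → Fin d → ℝ, |S f - (n : ℝ)⁻¹ * ∑ i, f (clampPt (ω i))| =
      |(n : ℝ)⁻¹ * ∑ i, ext f (ω i) - ∫ x, ext f x ∂(mu d)| := by
    intro ω
    rw [S_eq, abs_sub_comm]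
    rfl
  simp_rw [e1]
  have hem : Measurable (fun ω : Fin n → Fin d → ℝ =>
      (n : ℝ)⁻¹ * ∑ i, ext f (ω i) - ∫ x, ext f x ∂(mu d)) := by
    refine Measurable.sub ?_ measurable_const
    refine Measurable.const_mul (Finset.measurable_sum _ fun i _ => ?_) _
    exact hgm.comp (measurable_pi_apply i)
  refine (upperIntegral_le_lintegral _ (hem.abs.ennreal_ofReal) (fun _ => le_rfl)).trans ?_
  refine mean_abs_le _ hem (by positivity) ?_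
  rw [← ofReal_integral_eq_lintegral_ofReal h1.integrable_sq (ae_of_all _ fun _ => sq_nonneg _)]
  refine ENNReal.ofReal_le_ofReal (h2.trans ?_)
  have h3 := integral_sq_le hgm 1 hgb
  have h4 : ((n : ℝ) ^ (-(1/2) : ℝ)) ^ 2 = (n : ℝ)⁻¹ := by
    rw [← Real.rpow_natCast, ← Real.rpow_mul hn'.le]
    norm_num
    exact Real.rpow_neg_one _
  rw [h4]
  calc (n : ℝ)⁻¹ * ∫ x, ext f x ^ 2 ∂(mu d) ≤ (n : ℝ)⁻¹ * 1 ^ 2 := by gcongr
    _ = _ := by ring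

lemma sq_le_four_pow (d : ℕ) : (d : ℝ) ^ 2 ≤ 4 ^ d := by
  have h1 : (d : ℝ) ≤ 2 ^ d := by
    have : d < 2 ^ d := Nat.lt_two_pow_self
    exact_mod_cast this.le
  calc (d : ℝ) ^ 2 ≤ (2 ^ d) ^ 2 := by gcongr
    _ = 4 ^ d := by rw [← pow_mul, mul_comm, pow_mul]; norm_num

/-- the algorithm -/
lemma eRan_algo {k d m n n₁ : ℕ} (hk : 1 ≤ k) (hm : 1 ≤ m) (hd : 1 ≤ d) (hn₁ : 0 < n₁)
    {Lam : ℝ} (hLam1 : 1 ≤ Lam)
    (hLam : ∀ (M : ℕ) (x : ℝ), ∑ p : Fin M × Fin k, |phi k M p x| ≤ Lam)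
    (hR : (32 * k * Lam ^ 2 * m) ^ d ≤ (n₁ : ℝ)) (hn : 3 * n₁ ≤ n) :
    eRan n d k ≤ ENNReal.ofReal (2 * (1 + Lam) * ((m : ℝ)⁻¹) ^ k * (n₁ : ℝ) ^ (-(1/2) : ℝ)) := by
  have hn₁' : (0:ℝ) < n₁ := by exact_mod_cast hn₁
  have hk' : (1:ℝ) ≤ k := by exact_mod_cast hk
  have hm' : (1:ℝ) ≤ m := by exact_mod_cast hm
  have hcard : Fintype.card (QIdx k m d n₁ n₁) ≤ n := by
    simp only [QIdx, Fintype.card_sum, Fintype.card_pi, Fintype.card_prod, Fintype.card_fin,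
      Finset.prod_const, Finset.card_univ]
    have h1 : ((m * k : ℕ) : ℝ) ^ d ≤ n₁ := by
      refine le_trans ?_ hR
      refine pow_le_pow_left₀ (by positivity) ?_ d
      push_cast
      have h2 : (1:ℝ) ≤ 32 * Lam ^ 2 := by nlinarith
      calc (m : ℝ) * k = 1 * (m * k) := by ring
        _ ≤ (32 * Lam ^ 2) * (m * k) := by gcongr
        _ = _ := by ring
    have h2 : (m * k) ^ d ≤ n₁ := by exact_mod_cast h1
    omega
  obtain ⟨s⟩ := nonempty_Sys hk hm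
  refine eRan_le (ι := QIdx k m d n₁ n₁) hcard (Ω := Om d n₁ n₁)
    ((Measure.pi fun _ => mu d).prod (Measure.pi fun _ => mu d))
    (fun ω q => clampPt (pts k m d n₁ n₁ ω q)) (fun ω v => outp s d n₁ n₁ ω v) _ ?_
  intro f hf
  set E : ℝ := (1 + Lam) * ((m : ℝ)⁻¹) ^ k with hE
  have hE0 : 0 ≤ E := by positivity
  set K : ℝ := 2 * (1 + Lam) * ((m : ℝ)⁻¹) ^ k * (n₁ : ℝ) ^ (-(1/2) : ℝ) with hK
  have hKE : K = 2 * E * (n₁ : ℝ) ^ (-(1/2) : ℝ) := by rw [hK, hE]; ring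
  have h4 : ((n₁ : ℝ) ^ (-(1/2) : ℝ)) ^ 2 = (n₁ : ℝ)⁻¹ := by
    rw [← Real.rpow_natCast, ← Real.rpow_mul hn₁'.le]
    norm_num
    exact Real.rpow_neg_one _
  have hK2 : (n₁ : ℝ)⁻¹ * (2 * E ^ 2 + (8 * k * m : ℝ) ^ d * ((n₁ : ℝ)⁻¹ *
      (E * d * Lam ^ d) ^ 2)) ≤ K ^ 2 := by
    have h5 : (8 * k * m : ℝ) ^ d * ((n₁ : ℝ)⁻¹ * (E * d * Lam ^ d) ^ 2) ≤ E ^ 2 := by
      have h6 : (8 * k * m : ℝ) ^ d * ((d : ℝ) ^ 2 * (Lam ^ d) ^ 2) ≤ n₁ := by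
        refine le_trans ?_ hR
        calc (8 * k * m : ℝ) ^ d * ((d : ℝ) ^ 2 * (Lam ^ d) ^ 2)
            ≤ (8 * k * m : ℝ) ^ d * (4 ^ d * (Lam ^ d) ^ 2) := by
              gcongr; exact sq_le_four_pow d
          _ = (32 * k * Lam ^ 2 * m) ^ d := by
              rw [← pow_mul, mul_comm d 2, pow_mul, ← mul_pow, ← mul_pow]
              congr 1; ring
      calc (8 * k * m : ℝ) ^ d * ((n₁ : ℝ)⁻¹ * (E * d * Lam ^ d) ^ 2)
          = ((8 * k * m : ℝ) ^ d * ((d : ℝ) ^ 2 * (Lam ^ d) ^ 2)) * ((n₁ : ℝ)⁻¹ * E ^ 2) := by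
            ring
        _ ≤ n₁ * ((n₁ : ℝ)⁻¹ * E ^ 2) := by gcongr
        _ = E ^ 2 := by field_simp
    have h6 : K ^ 2 = 4 * E ^ 2 * (n₁ : ℝ)⁻¹ := by
      rw [hKE, mul_pow (2 * E), h4]; ring
    rw [h6]
    calc (n₁ : ℝ)⁻¹ * (2 * E ^ 2 + (8 * k * m : ℝ) ^ d * ((n₁ : ℝ)⁻¹ * (E * d * Lam ^ d) ^ 2))
        ≤ (n₁ : ℝ)⁻¹ * (2 * E ^ 2 + E ^ 2) := by gcongr
      _ ≤ (n₁ : ℝ)⁻¹ * (4 * E ^ 2) := by gcongr; nlinarith [sq_nonneg E]
      _ = _ := by ring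
  exact main_error s d n₁ n₁ hk hm hd hn₁ hn₁ hLam1 hLam hf (E := E)
    (U := E * d * Lam ^ d) (K := K) rfl rfl (by positivity) hK2

theorem upper_bound {k : ℕ} (hk : 1 ≤ k) : ∃ C : ℝ, ∀ d n : ℕ, 1 ≤ d → 1 ≤ n →
    eRan n d k ≤ ENNReal.ofReal (C * (n : ℝ) ^ (-(k : ℝ) / (d : ℝ) - 1 / 2)) := by
  obtain ⟨Lam, hLam1, hLam⟩ := exists_Lam k
  set R : ℝ := 32 * k * Lam ^ 2 with hR
  have hk' : (1:ℝ) ≤ k := by exact_mod_cast hk
  have hR1 : 1 ≤ R := by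
    have : (1:ℝ) ≤ Lam ^ 2 := one_le_pow₀ hLam1
    rw [hR]; nlinarith
  refine ⟨2 * (1 + Lam) * (2 * R) ^ k * 5 ^ (k + 1) + (5 * R) ^ k, ?_⟩
  intro d n hd hn
  have hd' : (1:ℝ) ≤ d := by exact_mod_cast hd
  have hn' : (1:ℝ) ≤ n := by exact_mod_cast hn
  have hn0 : (0:ℝ) < n := by linarith
  set e : ℝ := -(k : ℝ) / (d : ℝ) - 1 / 2 with he
  set n₁ := n / 3 with hn₁
  have hnpow : 0 < (n : ℝ) ^ e := Real.rpow_pos_of_pos hn0 _
  have hkd : (k : ℝ) / d ≤ k := div_le_self (by positivity) hd'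
  have hkd0 : 0 ≤ (k : ℝ) / d := by positivity
  by_cases hcase : R ^ d ≤ (n₁ : ℝ)
  · -- many samples
    have hn₁1 : (1:ℝ) ≤ n₁ := le_trans (one_le_pow₀ hR1) hcase
    have hn₁pos : (0:ℝ) < n₁ := by linarith
    have hn₁nat : 0 < n₁ := by exact_mod_cast hn₁pos
    set y : ℝ := (n₁ : ℝ) ^ ((d : ℝ)⁻¹) with hy
    have hyd : y ^ d = n₁ := by
      rw [hy, ← Real.rpow_natCast, ← Real.rpow_mul hn₁pos.le, inv_mul_cancel₀ (by positivity),
        Real.rpow_one]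
    have hy0 : 0 < y := Real.rpow_pos_of_pos hn₁pos _
    have hyR : R ≤ y := by
      by_contra h
      push Not at h
      have := pow_lt_pow_left₀ h hy0.le (by omega : d ≠ 0)
      rw [hyd] at this
      linarith
    set m : ℕ := ⌊y / R⌋₊ with hm
    have hyR1 : 1 ≤ y / R := (one_le_div (by linarith)).2 hyR
    have hm1 : 1 ≤ m := (Nat.one_le_floor_iff _).2 hyR1
    have hmle : (m : ℝ) ≤ y / R := Nat.floor_le (by positivity)
    have hmge : y / R / 2 ≤ m := by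
      have h1 := Nat.lt_floor_add_one (y / R)
      have h2 : (1:ℝ) ≤ m := by exact_mod_cast hm1
      rw [← hm] at h1
      linarith
    have hRm : (32 * k * Lam ^ 2 * m) ^ d ≤ (n₁ : ℝ) := by
      rw [← hR, ← hyd]
      refine pow_le_pow_left₀ (by positivity) ?_ d
      calc R * m ≤ R * (y / R) := by gcongr
        _ = y := by field_simp
    have h3 : 3 * n₁ ≤ n := Nat.mul_div_le n 3
    refine (eRan_algo hk hm1 hd hn₁nat hLam1 hLam hRm h3).trans ?_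
    refine ENNReal.ofReal_le_ofReal ?_
    have h5 : ((m : ℝ)⁻¹) ^ k ≤ (2 * R) ^ k * (n₁ : ℝ) ^ (-(k : ℝ) / d) := by
      have h6 : (m : ℝ)⁻¹ ≤ 2 * R * y⁻¹ := by
        rw [inv_le_comm₀ (by positivity) (by positivity)]
        calc (2 * R * y⁻¹)⁻¹ = y / R / 2 := by field_simp
          _ ≤ m := hmge
      calc ((m : ℝ)⁻¹) ^ k ≤ (2 * R * y⁻¹) ^ k := by gcongr
        _ = (2 * R) ^ k * (y⁻¹) ^ k := mul_pow _ _ _
        _ = _ := by
            congr 1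
            rw [hy, ← Real.rpow_neg hn₁pos.le, ← Real.rpow_natCast, ← Real.rpow_mul hn₁pos.le]
            congr 1
            field_simp
    have h7 : (n₁ : ℝ) ^ (-(k : ℝ) / d) * (n₁ : ℝ) ^ (-(1/2) : ℝ) = (n₁ : ℝ) ^ e := by
      rw [← Real.rpow_add hn₁pos]; congr 1
    have h8 : (n₁ : ℝ) ^ e ≤ 5 ^ (k + 1) * (n : ℝ) ^ e := by
      have h9 : (n : ℝ) / 5 ≤ n₁ := by
        have h10 : 3 ≤ n := by
          by_contra h
          push Not at h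
          have : n₁ = 0 := Nat.div_eq_of_lt h
          omega
        have h11 : n ≤ 5 * n₁ := by omega
        have : (n : ℝ) ≤ 5 * n₁ := by exact_mod_cast h11
        linarith
      have he0 : e ≤ 0 := by rw [he, neg_div]; linarith
      calc (n₁ : ℝ) ^ e ≤ ((n : ℝ) / 5) ^ e := Real.rpow_le_rpow_of_nonpos (by positivity) h9 he0
        _ = (n : ℝ) ^ e * 5 ^ (-e) := by
            rw [Real.div_rpow hn0.le (by norm_num), Real.rpow_neg (by norm_num)]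
            rfl
        _ ≤ (n : ℝ) ^ e * 5 ^ ((k : ℝ) + 1) := by
            gcongr
            · norm_num
            · rw [he, neg_div]; linarith
        _ = _ := by
            rw [mul_comm]
            congr 1
            rw [← Real.rpow_natCast]; push_cast; rfl
    calc 2 * (1 + Lam) * ((m : ℝ)⁻¹) ^ k * (n₁ : ℝ) ^ (-(1/2) : ℝ)
        ≤ 2 * (1 + Lam) * ((2 * R) ^ k * (n₁ : ℝ) ^ (-(k : ℝ) / d)) * (n₁ : ℝ) ^ (-(1/2) : ℝ) := by
          gcongr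
      _ = 2 * (1 + Lam) * (2 * R) ^ k * (n₁ : ℝ) ^ e := by rw [← h7]; ring
      _ ≤ 2 * (1 + Lam) * (2 * R) ^ k * (5 ^ (k + 1) * (n : ℝ) ^ e) := by gcongr
      _ = 2 * (1 + Lam) * (2 * R) ^ k * 5 ^ (k + 1) * (n : ℝ) ^ e := by ring
      _ ≤ _ := by
          gcongr
          have : 0 ≤ (5 * R) ^ k := by positivity
          linarith
  · -- few samples
    push Not at hcase
    refine (eRan_mc hn).trans (ENNReal.ofReal_le_ofReal ?_)
    have h1 : (n : ℝ) ≤ 5 * R ^ d := by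
      have h2 : n ≤ 3 * n₁ + 2 := by omega
      have h3 : (n : ℝ) ≤ 3 * n₁ + 2 := by exact_mod_cast h2
      have h4 : 1 ≤ R ^ d := one_le_pow₀ hR1
      linarith
    have h2 : (n : ℝ) ^ ((k : ℝ) / d) ≤ (5 * R) ^ k := by
      calc (n : ℝ) ^ ((k : ℝ) / d) ≤ (5 * R ^ d) ^ ((k : ℝ) / d) :=
            Real.rpow_le_rpow hn0.le h1 hkd0
        _ = 5 ^ ((k : ℝ) / d) * (R ^ d) ^ ((k : ℝ) / d) :=
            Real.mul_rpow (by norm_num) (by positivity)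
        _ = 5 ^ ((k : ℝ) / d) * R ^ k := by
            congr 1
            rw [← Real.rpow_natCast, ← Real.rpow_mul (by linarith), ← Real.rpow_natCast R k]
            congr 1
            field_simp
        _ ≤ 5 ^ (k : ℝ) * R ^ k := by
            gcongr
            norm_num
        _ = (5 * R) ^ k := by rw [Real.rpow_natCast, mul_pow 5 R k]
    have h3 : (n : ℝ) ^ (-(1/2) : ℝ) = (n : ℝ) ^ ((k : ℝ) / d) * (n : ℝ) ^ e := by
      rw [← Real.rpow_add hn0]; congr 1; rw [he]; ring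
    rw [h3]
    calc (n : ℝ) ^ ((k : ℝ) / d) * (n : ℝ) ^ e ≤ (5 * R) ^ k * (n : ℝ) ^ e := by gcongr
      _ ≤ _ := by
          gcongr
          have : 0 ≤ 2 * (1 + Lam) * (2 * R) ^ k * 5 ^ (k + 1) := by positivity
          linarith

end Pool.Agent.H28.RI
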